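import Pool.Agent.Lib.MGen.Const
import Pool.Agent.Lib.MJump.Main

/-!
# The dichotomy for finite Borel rank, with exact jumps
-/

set_option autoImplicit false

namespace Pool.Agent.MGen

open Filter Set TopologicalSpace Pool.Agent.GammaZero Pool.Agent.Mart Encodable

theorem phi_le {φ : (ℕ → Bool) → (ℕ → Bool)} {n : ℕ} (hS : ∀ i, Sig n {A | φ A i = true}) :
    ∃ p : ℕ → Bool, ∀ Y, TR p Y → TR (φ Y) (jmp (n + 1) Y) := by
  obtain ⟨p, hp⟩ := fam_sig n (fun i => {A | φ A i = true}) hS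
  refine ⟨p, fun Y hY => ?_⟩
  have h1 := hp Y hY (fun _ => Y) (ci_orc_comp (TR.refl Y) (CI.of_computable Computable.snd))
  rw [tr_iff_ci]
  have h2 := (DI.ci h1).comp_computable (g := fun k : ℕ => (([] : List Bool), k))
    ((Computable.const []).pair Computable.id)
  refine h2.congr fun k => ?_
  show (φ Y k).toNat = if φ Y k = true then 1 else 0
  cases φ Y k <;> rfl

theorem fin_dichotomy {φ : (ℕ → Bool) → (ℕ → Bool)} {n : ℕ}
    (hS : ∀ i, Sig n {A | φ A i = true}) (hinv : ∀ A B, Eqv A B → TR (φ A) (φ B)) :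
    (∃ D : ℕ → Bool, ∀ B, ∃ A, TR B A ∧ φ A = D) ∨
    ∀ M, n + 2 ≤ M → ∀ B : ℕ → Bool, ∃ C' : ℕ → Bool, ∀ c, TR C' c →
      ∃ a : ℕ → ℕ → Bool, (∀ j, TR B (a j) ∧ Eqv (jmp (M + 1) (a j)) c) ∧
        Eqv c (join5 fun j => φ (a j)) := by
  by_cases H : ∃ C' : ℕ → Bool, ∀ t, TR C' t → ∀ G H, Gen (jmp n t) G →
      Gen (jmp n t) H → TR (φ (bjoin t G)) (φ (bjoin t H))
  · left
    obtain ⟨C', hC'⟩ := H
    refine const_of_generic (z := C') (measurable_pi_iff.2 fun i => measurable_to_bool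
      (sig_measurable n _ (hS i))) hinv fun B hB => ?_
    obtain ⟨G₀, hG₀⟩ := (dense_of_mem_residual (gen_residual (jmp n B))).nonempty
    refine ⟨φ (bjoin B G₀), (gen_residual (jmp n B)).mono fun G hG => ?_⟩
    exact ⟨hC' B hB G G₀ hG hG₀, hC' B hB G₀ G hG₀ hG⟩
  · right
    intro M hM B
    obtain ⟨p, hp⟩ := phi_le hS
    rcases dichotomy hS hinv (bjoin B p) with ⟨C', -, h⟩ | h
    · exact absurd ⟨C', h⟩ H
    · obtain ⟨C', hC'⟩ := h M hM
      refine ⟨C', fun c hc => ?_⟩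
      obtain ⟨a, h1, h2, h3⟩ := hC' c hc
      refine ⟨a, fun j => ⟨(tr_bjoin_left B p).trans (h2 j), h1 j⟩, h3, join5_tr fun j _ => ?_⟩
      have h4 := hp (a j) ((tr_bjoin_right B p).trans (h2 j))
      exact (h4.trans (jmp_tr_jmp (a j) (by omega))).trans (h1 j).1

end Pool.Agent.MGen
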