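import Pool.Agent.Lib.MGen.Five2

/-!
# The dichotomy for all Borel functions
-/

set_option autoImplicit false

namespace Pool.Agent.MGen

open Filter Set TopologicalSpace Pool.Agent.GammaZero Pool.Agent.Mart Encodable

theorem operator_dichotomy {φ h : (ℕ → Bool) → (ℕ → Bool)} (hφ : Measurable φ)
    (hh : Measurable h) (hinv : ∀ A B, Eqv A B → TR (φ A) (φ B)) :
    ∃ J : (ℕ → Bool) → (ℕ → Bool), Measurable J ∧ (∀ A B, TR A B → TR (J A) (J B)) ∧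
      (∀ A, TR A (J A) ∧ TR (φ A) (J A) ∧ TR (h A) (J A)) ∧
      ((∃ D : ℕ → Bool, ∀ B, ∃ A, TR B A ∧ φ A = D) ∨
        ∀ B : ℕ → Bool, ∃ W : ℕ → Bool, ∀ C, TR W C → ∃ a : ℕ → ℕ → Bool,
          (∀ j, TR B (a j) ∧ Eqv (J (a j)) C) ∧ Eqv C (join5 fun j => φ (a j))) := by
  obtain ⟨base, hb⟩ := exists_base hφ hh
  refine ⟨JJ base, measurable_JJ base, fun A B hAB => JJ_mono base hAB,
    fun A => ⟨tr_JJ_self hb A, tr_JJ_phi hb A, tr_JJ_h hb A⟩, ?_⟩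
  by_cases hcase : ∃ z : ℕ → Bool, ∀ b, TR z b →
      ∃ d : ℕ → Bool, ∀ᶠ g in residual (ℕ → Bool), Eqv (φ (bjoin b g)) d
  · left
    obtain ⟨z, hz⟩ := hcase
    exact const_of_generic hφ hinv hz
  · right
    intro B
    have hex : ∃ b, TR B b ∧
        ¬ ∃ d : ℕ → Bool, ∀ᶠ g in residual (ℕ → Bool), Eqv (φ (bjoin b g)) d := by
      by_contra hcon
      exact hcase ⟨B, fun b hb => by_contra fun h' => hcon ⟨b, hb, h'⟩⟩
    obtain ⟨b, hBb, hnc'⟩ := hex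
    obtain ⟨W, hW⟩ := five_reals2 hb hφ hinv (nc_YN hφ hinv hnc')
    refine ⟨W, fun C hC => ?_⟩
    obtain ⟨a, h1, h2⟩ := hW C hC
    refine ⟨a, fun j => ⟨hBb.trans (h1 j).1, (h1 j).2⟩, h2, ?_⟩
    exact join5_tr fun j _ => (tr_JJ_phi hb (a j)).trans (h1 j).2.1

theorem operator_hyp {φ J : (ℕ → Bool) → (ℕ → Bool)}
    (hinv : ∀ A B, Eqv A B → TR (φ A) (φ B))
    (hJ : ∀ B : ℕ → Bool, ∃ W : ℕ → Bool, ∀ C, TR W C → ∃ a : ℕ → ℕ → Bool,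
      (∀ j, TR B (a j) ∧ Eqv (J (a j)) C) ∧ Eqv C (join5 fun j => φ (a j)))
    {Z : ℕ → Bool} (hZ : ∀ A, TR Z A → TR (φ A) (φ (J A))) :
    ∃ W : ℕ → Bool, ∀ A, TR W A → TR A (φ A) := by
  obtain ⟨W, hW⟩ := hJ Z
  refine ⟨W, fun C hC => ?_⟩
  obtain ⟨a, h1, h2⟩ := hW C hC
  refine h2.1.trans (join5_tr fun j _ => ?_)
  exact (hZ _ (h1 j).1).trans (hinv _ _ (h1 j).2)

end Pool.Agent.MGen
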