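import Pool.Agent.Lib.MGen.Blk2

/-!
# The basic sets of the operator, the name of `g ↦ φ (b ⊕ g)` and the dense sets
-/

set_option autoImplicit false

namespace Pool.Agent.MGen

open Topology Filter Set TopologicalSpace Pool.Agent.GammaZero Pool.Agent.Mart Encodable

/-- the left half of `a` -/
def lft (a : ℕ → Bool) (k : ℕ) : Bool := a (2 * k)

/-- the right half of `a` -/
def rgt (a : ℕ → Bool) (k : ℕ) : Bool := a (2 * k + 1)

/-- `b ⊕ g` with the first bits of `g` replaced by `σ` -/
def pat (σ : List Bool) (a : ℕ → Bool) : ℕ → Bool := bjoin (lft a) (patch σ (rgt a))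

theorem lft_bjoin (b G : ℕ → Bool) : lft (bjoin b G) = b := by
  funext k
  unfold lft bjoin
  have h1 : 2 * k % 2 = 0 := by omega
  have h2 : 2 * k / 2 = k := by omega
  rw [if_pos h1, h2]

theorem rgt_bjoin (b G : ℕ → Bool) : rgt (bjoin b G) = G := by
  funext k
  unfold rgt bjoin
  have h1 : ¬ (2 * k + 1) % 2 = 0 := by omega
  have h2 : (2 * k + 1) / 2 = k := by omega
  rw [if_neg h1, h2]

theorem pat_bjoin (σ : List Bool) (b G : ℕ → Bool) :
    pat σ (bjoin b G) = bjoin b (patch σ G) := by
  unfold pat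
  rw [lft_bjoin, rgt_bjoin]

theorem measurable_pat (σ : List Bool) : Measurable (pat σ) := by
  refine Continuous.measurable (continuous_pi fun n => ?_)
  unfold pat bjoin
  by_cases h : n % 2 = 0
  · simp only [h, if_true]
    exact continuous_apply _
  · simp only [h, if_false]
    unfold patch
    cases h2 : σ[n / 2]? with
    | none => exact continuous_apply _
    | some b => exact continuous_const

/-- the basic sets -/
def bset (φ h : (ℕ → Bool) → (ℕ → Bool)) (i : ℕ) : Set (ℕ → Bool) :=
  if i.unpair.1 = 0 then {a | a i.unpair.2 = true}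
  else if i.unpair.1 = 1 then {a | φ a i.unpair.2 = true}
  else if i.unpair.1 = 2 then {a | φ a i.unpair.2 = false}
  else if i.unpair.1 = 3 then
    {a | Idx (φ a) i.unpair.2.unpair.2 (φ (pat (dl i.unpair.2.unpair.1) a))}
  else {a | h a i.unpair.2 = true}

theorem measurable_bset {φ h : (ℕ → Bool) → (ℕ → Bool)} (hφ : Measurable φ) (hh : Measurable h)
    (i : ℕ) : MeasurableSet (bset φ h i) := by
  unfold bset
  split_ifs
  · exact measurable_bit _ _
  · exact hφ (measurable_bit _ _)
  · exact hφ (measurable_bit _ _)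
  · exact (hφ.prodMk (hφ.comp (measurable_pat _))) (measurable_idx i.unpair.2.unpair.2)
  · exact hh (measurable_bit _ _)

/-- `base` codes the basic sets of `φ` and `h` -/
def IsBase (φ h : (ℕ → Bool) → (ℕ → Bool)) (base : ℕ → BC) : Prop :=
  ∀ i, (base i).sat = bset φ h i

theorem exists_base {φ h : (ℕ → Bool) → (ℕ → Bool)} (hφ : Measurable φ) (hh : Measurable h) :
    ∃ base : ℕ → BC, IsBase φ h base := by
  choose base hbase using fun i => exists_code (measurable_bset hφ hh i)
  exact ⟨base, hbase⟩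

variable {φ h : (ℕ → Bool) → (ℕ → Bool)} {base : ℕ → BC}

theorem IsBase.s0 (hb : IsBase φ h base) (n : ℕ) :
    (base (Nat.pair 0 n)).sat = {a | a n = true} := by
  rw [hb]
  unfold bset
  simp

theorem IsBase.s1 (hb : IsBase φ h base) (n : ℕ) :
    (base (Nat.pair 1 n)).sat = {a | φ a n = true} := by
  rw [hb]
  unfold bset
  simp

theorem IsBase.s2 (hb : IsBase φ h base) (n : ℕ) :
    (base (Nat.pair 2 n)).sat = {a | φ a n = false} := by
  rw [hb]
  unfold bset
  simp

theorem IsBase.s3 (hb : IsBase φ h base) (n e : ℕ) :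
    (base (Nat.pair 3 (Nat.pair n e))).sat = {a | Idx (φ a) e (φ (pat (dl n) a))} := by
  rw [hb]
  unfold bset
  simp

theorem IsBase.s4 (hb : IsBase φ h base) (n : ℕ) :
    (base (Nat.pair 4 n)).sat = {a | h a n = true} := by
  rw [hb]
  unfold bset
  simp

private theorem pair_comp (i : ℕ) : Computable fun n : ℕ => Nat.pair i n :=
  Primrec₂.natPair.to_comp.comp (Computable.const _) Computable.id

theorem tr_JJ_self (hb : IsBase φ h base) (a : ℕ → Bool) : TR a (JJ base a) :=
  tr_JJ base (pair_comp 0) fun n => by rw [hb.s0]; exact Iff.rfl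

theorem tr_JJ_phi (hb : IsBase φ h base) (a : ℕ → Bool) : TR (φ a) (JJ base a) :=
  tr_JJ base (pair_comp 1) fun n => by rw [hb.s1]; exact Iff.rfl

theorem tr_JJ_h (hb : IsBase φ h base) (a : ℕ → Bool) : TR (h a) (JJ base a) :=
  tr_JJ base (pair_comp 4) fun n => by rw [hb.s4]; exact Iff.rfl

/-! ### The name of `g ↦ φ (b ⊕ g)` -/

/-- `ρ` forces bit `n` of `φ (b ⊕ g)` to be `i` -/
def YN (φ : (ℕ → Bool) → (ℕ → Bool)) (b : ℕ → Bool) (ρ : List Bool) (n : ℕ) (i : Bool) : Prop :=
  Fo {g | φ (bjoin b g) n = i} ρ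

theorem continuous_bjoin (b : ℕ → Bool) : Continuous fun g : ℕ → Bool => bjoin b g := by
  refine continuous_pi fun n => ?_
  unfold bjoin
  by_cases h : n % 2 = 0
  · simp only [h, if_true]
    exact continuous_const
  · simp only [h, if_false]
    exact continuous_apply _

theorem bm_YN (hφ : Measurable φ) (b : ℕ → Bool) (n : ℕ) (i : Bool) :
    BaireMeasurableSet {g | φ (bjoin b g) n = i} :=
  bm_one hφ (continuous_bjoin b) (measurable_bit n i)

private theorem compl_bit (b : ℕ → Bool) (n : ℕ) :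
    {g | φ (bjoin b g) n = true}ᶜ = {g | φ (bjoin b g) n = false} := by
  ext g
  simp

private theorem compl_bit' (b : ℕ → Bool) (n : ℕ) :
    {g | φ (bjoin b g) n = false}ᶜ = {g | φ (bjoin b g) n = true} := by
  ext g
  simp

theorem name_YN (hφ : Measurable φ) (b : ℕ → Bool) : Name (YN φ b) where
  mono _ _ _ _ h h' := Fo.mono h h'
  cons ρ n h := by
    obtain ⟨g, h1, h2⟩ := h.1.disj h.2 (Ext_ext ρ) (Ext_ext ρ)
    have h1' : φ (bjoin b g) n = true := h1
    have h2' : φ (bjoin b g) n = false := h2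
    rw [h1'] at h2'
    exact Bool.noConfusion h2'
  dense ρ n := by
    obtain ⟨τ, hτ, h1⟩ := Fo.dense (bm_YN hφ b n true) ρ
    rw [compl_bit] at h1
    rcases h1 with h1 | h1
    · exact ⟨τ, true, hτ, h1⟩
    · exact ⟨τ, false, hτ, h1⟩

theorem di_YN (hb : IsBase φ h base) (b : ℕ → Bool) :
    DI {orc (JJ base b)} (fun q : List Bool × ℕ × Bool => YN φ b q.1 q.2.1 q.2.2) := by
  have e0 : CI {orc (JJ base b)} (fun q : List Bool × ℕ × Bool => encode q.1) :=
    CI.of_computable (Computable.encode.comp Computable.fst)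
  have e1 : ∀ i : ℕ, CI {orc (JJ base b)} (fun q : List Bool × ℕ × Bool => ib (Nat.pair i q.2.1)) :=
    fun i => CI.of_computable (ib_computable.comp ((pair_comp i).comp
      (Computable.fst.comp Computable.snd)))
  have h1 := di_fo (base := base) (TR.refl (JJ base b)) (e1 1) e0
  have h2 := di_fo (base := base) (TR.refl (JJ base b)) (e1 2) e0
  have h3 : DI {orc (JJ base b)} (fun q : List Bool × ℕ × Bool => (encode q.2.2) = encode true) :=
    DI.eq (CI.of_computable (Computable.encode.comp (Computable.snd.comp Computable.snd)))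
      (CI.const _)
  refine ((h3.and h1).or (h3.not.and h2)).of_iff fun q => ?_
  obtain ⟨ρ, n, i⟩ := q
  simp only [fam_ib, hb.s1, hb.s2]
  cases i
  · constructor
    · intro h4
      exact Or.inr ⟨fun h5 => absurd (Encodable.encode_injective h5) (by simp), h4⟩
    · rintro (⟨h4, -⟩ | ⟨-, h4⟩)
      · exact absurd (Encodable.encode_injective h4) (by simp)
      · exact h4
  · constructor
    · intro h4
      exact Or.inl ⟨rfl, h4⟩
    · rintro (⟨-, h4⟩ | ⟨h4, -⟩)
      · exact h4
      · exact absurd rfl h4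

theorem YN_truth (hb : IsBase φ h base) {b G : ℕ → Bool} (hG : Good base b G) (i : ℕ) :
    ∃ m, YN φ b (pre G m) i (φ (bjoin b G) i) := by
  cases h1 : φ (bjoin b G) i
  · obtain ⟨m, hm⟩ := (truth hG (base (Nat.pair 2 i)) ⟨ib _, fam_ib _ _⟩).1
      (by rw [hb.s2]; exact h1)
    rw [hb.s2] at hm
    exact ⟨m, hm⟩
  · obtain ⟨m, hm⟩ := (truth hG (base (Nat.pair 1 i)) ⟨ib _, fam_ib _ _⟩).1
      (by rw [hb.s1]; exact h1)
    rw [hb.s1] at hm
    exact ⟨m, hm⟩

/-! ### Nowhere constant -/

theorem isOpenMap_patch (σ : List Bool) : IsOpenMap (patch σ) := by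
  intro V hV
  rw [isOpen_iff_forall_mem_open]
  rintro x ⟨g, hg, rfl⟩
  obtain ⟨n, hn⟩ := exists_cyl hV hg
  refine ⟨cyl (max n σ.length) (patch σ g), ?_, isOpen_cyl _ _, self_mem_cyl _ _⟩
  intro x hx
  refine ⟨fun k => if k < max n σ.length then g k else x k, hn fun j hj => ?_, ?_⟩
  · show (if j < max n σ.length then g j else x j) = g j
    rw [if_pos (lt_of_lt_of_le hj (le_max_left _ _))]
  · funext k
    rcases Nat.lt_or_ge k σ.length with hk | hk
    · have h1 := hx k (lt_of_lt_of_le hk (le_max_right _ _))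
      rw [h1, patch_lt hk, patch_lt hk]
    · rw [patch_ge hk]
      by_cases h2 : k < max n σ.length
      · have h1 := hx k h2
        show (if k < max n σ.length then g k else x k) = x k
        rw [if_pos h2, h1, patch_ge hk]
      · show (if k < max n σ.length then g k else x k) = x k
        rw [if_neg h2]

theorem continuous_patch (σ : List Bool) : Continuous (patch σ) := by
  refine continuous_pi fun n => ?_
  unfold patch
  cases h2 : σ[n]? with
  | none => exact continuous_apply _
  | some b => exact continuous_const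

theorem nc_YN (hφ : Measurable φ) (hinv : ∀ A B, Eqv A B → TR (φ A) (φ B)) {b : ℕ → Bool}
    (hnc : ¬ ∃ d : ℕ → Bool, ∀ᶠ g in residual (ℕ → Bool), Eqv (φ (bjoin b g)) d) :
    NC (YN φ b) := by
  by_contra hcon
  unfold NC at hcon
  push Not at hcon
  obtain ⟨σ, hσ⟩ := hcon
  apply hnc
  have h1 : ∀ n, ∃ i : Bool, Fo {g | φ (bjoin b g) n = i} σ := by
    intro n
    by_cases h2 : ∃ ρ, σ <+: ρ ∧ YN φ b ρ n true
    · obtain ⟨ρ, hρ, h3⟩ := h2
      refine ⟨true, (fo_iff_not (bm_YN hφ b n true) σ).2 fun t ht h4 => ?_⟩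
      rw [compl_bit] at h4
      exact hσ ρ t n hρ ht h3 h4
    · refine ⟨false, (fo_iff_not (bm_YN hφ b n false) σ).2 fun t ht h4 => ?_⟩
      rw [compl_bit'] at h4
      exact h2 ⟨t, ht, h4⟩
  choose d hd using h1
  have h2 : ∀ᶠ g in residual (ℕ → Bool), Ext σ g → φ (bjoin b g) = d :=
    (eventually_countable_forall.2 hd).mono fun g hg hs => funext fun n => hg n hs
  have h3 := (tendsto_residual_of_isOpenMap (continuous_patch σ) (isOpenMap_patch σ)).eventually h2
  refine ⟨d, h3.mono fun g hg => ?_⟩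
  have h4 := hg (Ext_patch σ g)
  rw [← h4]
  have e1 : Eqv (bjoin b g) (bjoin b (patch σ g)) :=
    ⟨bjoin_tr (tr_bjoin_left b (patch σ g)) ((tr_patch σ g).trans (tr_bjoin_right b (patch σ g))),
      bjoin_tr (tr_bjoin_left b g) ((patch_tr σ g).trans (tr_bjoin_right b g))⟩
  exact ⟨hinv _ _ e1, hinv _ _ e1.symm⟩

/-! ### The dense sets -/

/-- `s` decides the `i`-th set of the family -/
def DD (base : ℕ → BC) (b : ℕ → Bool) (i : ℕ) (s : List Bool) : Prop :=
  Fo {g | bjoin b g ∈ (fam base i).sat} s ∨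
    ∃ k < s.length, Fo {g | bjoin b g ∈ (sb k (fam base i)).sat} s

theorem dfam_DD (base : ℕ → BC) (b : ℕ → Bool) : DFam (DD base b) where
  mono i ρ τ hρτ h := by
    rcases h with h | ⟨k, hk, h⟩
    · exact Or.inl (h.mono hρτ)
    · exact Or.inr ⟨k, lt_of_lt_of_le hk hρτ.length_le, h.mono hρτ⟩
  dense i ρ := by
    have hB : ∀ B : BC, BaireMeasurableSet {g | bjoin b g ∈ B.sat} := fun B =>
      ((continuous_bjoin b).measurable B.measurable).baireMeasurableSet
    obtain ⟨t, ht, h1⟩ := Fo.dense (hB (fam base i)) ρ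
    rcases h1 with h1 | h1
    · exact ⟨t, ht, Or.inl h1⟩
    · have h2 : {g | bjoin b g ∈ (fam base i).sat} =
          {g | ∀ k, g ∉ {g | bjoin b g ∈ (sb k (fam base i)).sat}} := by
        ext g
        exact sat_sb _ _
      rw [h2] at h1
      obtain ⟨k, t', ht', h3⟩ := fo_some (fun k => hB (sb k (fam base i))) h1
      refine ⟨t' ++ List.replicate (k + 1) false,
        ht.trans (ht'.trans (List.prefix_append _ _)), Or.inr ⟨k, ?_, ?_⟩⟩
      · simp only [List.length_append, List.length_replicate]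
        omega
      · exact h3.mono (List.prefix_append _ _)

theorem di_DD (base : ℕ → BC) (b : ℕ → Bool) :
    DI {orc (JJ base b)} (fun q : ℕ × List Bool => DD base b q.1 q.2) := by
  have h1 := di_fo (base := base) (TR.refl (JJ base b)) (α := ℕ × List Bool) (n := fun q => q.1)
    (s := fun q => q.2) (CI.of_computable Computable.fst)
    (CI.of_computable (Computable.encode.comp Computable.snd))
  have h2 := di_fo_sb (base := base) (TR.refl (JJ base b)) (α := (ℕ × List Bool) × ℕ)
    (n := fun q => q.1.1) (k := fun q => q.2) (s := fun q => q.1.2)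
    (CI.of_computable (Computable.fst.comp Computable.fst)) (CI.of_computable Computable.snd)
    (CI.of_computable (Computable.encode.comp (Computable.snd.comp Computable.fst)))
  exact h1.or (DI.bex h2 (CI.of_computable (Computable.list_length.comp Computable.snd)))

theorem pre_brn {w : ℕ → Bool → List Bool} (hlen : ∀ i, (w i true).length = (w i false).length)
    (hpos : ∀ i, 0 < (w i false).length) (e : ℕ → Bool) (i : ℕ) :
    pre (brn w e) (bpos w i) = stm w e i := by
  have h1 : pre (brn w e) (stm w e i).length = stm w e i := Ext_brn hlen hpos e i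
  rw [stm_length hlen] at h1
  exact h1

theorem good_brn {Y : List Bool → ℕ → Bool → Prop} {w : ℕ → Bool → List Bool} {b : ℕ → Bool}
    (hB : Blk2 Y (DD base b) w) (e : ℕ → Bool) : Good base b (brn w e) := by
  intro n
  refine ⟨bpos w (n + 1), ?_⟩
  rw [pre_brn hB.len hB.pos]
  rcases hB.dec n (stm w e n) (e n) (stm_length hB.len e n) with h1 | ⟨k, -, h1⟩
  · exact Or.inl h1
  · exact Or.inr ⟨k, h1⟩

end Pool.Agent.MGen
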