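import Pool.Agent.Lib.MGen.Fam
import Pool.Agent.Lib.MJump.Five

/-!
# Systems of blocks for an abstract family of dense sets of strings
-/

set_option autoImplicit false

namespace Pool.Agent.MGen

open Pool.Agent.GammaZero Pool.Agent.Mart Encodable

/-- a system of blocks: at each level two strings of the same length, which split the name `Y` and
lead into the `i`-th dense set, after every string of the right length -/
structure Blk2 (Y : List Bool → ℕ → Bool → Prop) (D : ℕ → List Bool → Prop)
    (w : ℕ → Bool → List Bool) : Prop where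
  len : ∀ i, (w i true).length = (w i false).length
  pos : ∀ i, 0 < (w i false).length
  split : ∀ (i : ℕ) (σ : List Bool), σ.length = bpos w i → Split Y σ (w i false) (w i true)
  dec : ∀ (i : ℕ) (σ : List Bool) (b : Bool), σ.length = bpos w i → D i (σ ++ w i b)

/-- families of dense sets of strings, closed under extensions -/
structure DFam (D : ℕ → List Bool → Prop) : Prop where
  mono : ∀ (i : ℕ) (ρ τ : List Bool), ρ <+: τ → D i ρ → D i τ
  dense : ∀ (i : ℕ) (ρ : List Bool), ∃ τ, ρ <+: τ ∧ D i τ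

private theorem bl_app {σ w v : List Bool} (h : w <+: v) : σ ++ w <+: σ ++ v :=
  (List.prefix_append_right_inj σ).2 h

private theorem bl_pad (a c : List Bool) (n : ℕ) :
    ∃ A C : List Bool, a <+: A ∧ c <+: C ∧ C.length = A.length ∧ n < A.length := by
  refine ⟨a ++ List.replicate (c.length + n + 1) false, c ++ List.replicate (a.length + n + 1) false,
    List.prefix_append _ _, List.prefix_append _ _, ?_, ?_⟩
  · simp only [List.length_append, List.length_replicate]
    omega
  · simp only [List.length_append, List.length_replicate]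
    omega

private theorem bl_split_list {Y : List Bool → ℕ → Bool → Prop} (hY : Name Y) (hNC : NC Y)
    (L : List (List Bool)) : ∃ w₀ w₁ : List Bool, w₁.length = w₀.length ∧ ∀ σ ∈ L, Split Y σ w₀ w₁ := by
  induction L with
  | nil => exact ⟨[], [], rfl, fun σ hσ => absurd hσ List.not_mem_nil⟩
  | cons σ L ih =>
    obtain ⟨w₀, w₁, -, h⟩ := ih
    obtain ⟨ρ₀, ρ₁, n, ⟨v₀, rfl⟩, ⟨v₁, rfl⟩, hY₀, hY₁⟩ := hNC (σ ++ w₀)
    obtain ⟨τ, b, ⟨v, rfl⟩, hYτ⟩ := hY.dense (σ ++ w₁) n
    cases b with
    | true =>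
      obtain ⟨A, C, hA, hC, hl, hn⟩ := bl_pad (w₀ ++ v₁) (w₁ ++ v) n
      refine ⟨A, C, hl, ?_⟩
      intro σ' hσ'
      rcases List.mem_cons.1 hσ' with rfl | hσ'
      · refine ⟨n, hn, Or.inr ⟨hY.mono _ _ _ _ ?_ hY₁, hY.mono _ _ _ _ ?_ hYτ⟩⟩
        · rw [List.append_assoc]; exact bl_app hA
        · rw [List.append_assoc]; exact bl_app hC
      · exact Split_mono hY ((List.prefix_append _ _).trans hA) ((List.prefix_append _ _).trans hC) (h σ' hσ')
    | false =>
      obtain ⟨A, C, hA, hC, hl, hn⟩ := bl_pad (w₀ ++ v₀) (w₁ ++ v) n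
      refine ⟨A, C, hl, ?_⟩
      intro σ' hσ'
      rcases List.mem_cons.1 hσ' with rfl | hσ'
      · refine ⟨n, hn, Or.inl ⟨hY.mono _ _ _ _ ?_ hY₀, hY.mono _ _ _ _ ?_ hYτ⟩⟩
        · rw [List.append_assoc]; exact bl_app hA
        · rw [List.append_assoc]; exact bl_app hC
      · exact Split_mono hY ((List.prefix_append _ _).trans hA) ((List.prefix_append _ _).trans hC) (h σ' hσ')

private theorem bl_decide_list {D : ℕ → List Bool → Prop} (hD : DFam D) (i : ℕ) (L : List (List Bool)) (w : List Bool) :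
    ∃ w' : List Bool, w <+: w' ∧ ∀ σ ∈ L, D i (σ ++ w') := by
  induction L with
  | nil => exact ⟨w, List.prefix_rfl, fun σ hσ => absurd hσ List.not_mem_nil⟩
  | cons σ L ih =>
    obtain ⟨w', hw, h⟩ := ih
    obtain ⟨τ, ⟨v, rfl⟩, hτ⟩ := hD.dense i (σ ++ w')
    refine ⟨w' ++ v, hw.trans (List.prefix_append _ _), ?_⟩
    intro σ' hσ'
    rcases List.mem_cons.1 hσ' with rfl | hσ'
    · rw [← List.append_assoc]; exact hτ
    · exact hD.mono _ _ _ (bl_app (List.prefix_append _ _)) (h σ' hσ')

theorem block_exists2 {D : ℕ → List Bool → Prop} (hD : DFam D) {Y : List Bool → ℕ → Bool → Prop} (hY : Name Y)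
    (hNC : NC Y) (N i : ℕ) :
    ∃ w₀ w₁ : List Bool, w₁.length = w₀.length ∧ 0 < w₀.length ∧
      ∀ σ : List Bool, σ.length = N →
        Split Y σ w₀ w₁ ∧ D i (σ ++ w₀) ∧ D i (σ ++ w₁) := by
  have hfin : {l : List Bool | l.length = N}.Finite := List.finite_length_eq Bool N
  have hmem : ∀ σ : List Bool, σ.length = N → σ ∈ hfin.toFinset.toList := by
    intro σ hσ
    rw [Finset.mem_toList, Set.Finite.mem_toFinset]
    exact hσ
  obtain ⟨w₀, w₁, -, hs⟩ := bl_split_list hY hNC hfin.toFinset.toList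
  obtain ⟨v₀, hv₀, hd₀⟩ := bl_decide_list hD i hfin.toFinset.toList w₀
  obtain ⟨v₁, hv₁, hd₁⟩ := bl_decide_list hD i hfin.toFinset.toList w₁
  obtain ⟨A, C, hA, hC, hl, hn⟩ := bl_pad v₀ v₁ 0
  refine ⟨A, C, hl, hn, ?_⟩
  intro σ hσ
  refine ⟨Split_mono hY (hv₀.trans hA) (hv₁.trans hC) (hs σ (hmem σ hσ)), ?_, ?_⟩
  · exact hD.mono _ _ _ (bl_app hA) (hd₀ σ (hmem σ hσ))
  · exact hD.mono _ _ _ (bl_app hC) (hd₁ σ (hmem σ hσ))

/-- the first `N` binary digits of `c` -/
private def bs (N c : ℕ) : List Bool := (List.range N).map fun q => decide (bt c q = 1)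

private theorem bs_length (N c : ℕ) : (bs N c).length = N := by simp [bs]

private theorem bs_surj (σ : List Bool) : ∃ c < 2 ^ σ.length, bs σ.length c = σ := by
  refine ⟨enc (fun q => ((σ[q]?).getD false).toNat) σ.length, enc_lt _ _, ?_⟩
  apply List.ext_getElem
  · simp [bs]
  · intro i h1 h2
    have hi : i < σ.length := h2
    simp only [bs, List.getElem_map, List.getElem_range]
    rw [bt_enc _ hi, List.getElem?_eq_getElem hi]
    cases σ[i] <;> simp

private theorem bs_computable : Computable₂ bs := by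
  have h : Primrec fun r : (ℕ × ℕ) × ℕ => r.1.2 / 2 ^ r.2 % 2 :=
    Primrec.nat_mod.comp (Primrec.nat_div.comp (Primrec.snd.comp Primrec.fst)
      (primrec_pow.comp (Primrec.const 2) Primrec.snd)) (Primrec.const 2)
  have h2 : Primrec fun r : (ℕ × ℕ) × ℕ => decide (bt r.1.2 r.2 = 1) :=
    (Primrec.eq.comp h (Primrec.const 1)).decide
  have h3 : Primrec fun p : ℕ × ℕ => bs p.1 p.2 :=
    Primrec.list_map (Primrec.list_range.comp Primrec.fst) h2.to₂
  exact h3.to_comp.to₂

private theorem di_Split {X : ℕ → Bool} {Y : List Bool → ℕ → Bool → Prop}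
    (hYd : DI {orc X} (fun q : List Bool × ℕ × Bool => Y q.1 q.2.1 q.2.2)) :
    DI {orc X} (fun q : List Bool × List Bool × List Bool => Split Y q.1 q.2.1 q.2.2) := by
  have hc0 : Computable fun r : (List Bool × List Bool × List Bool) × ℕ => r.1.1 ++ r.1.2.1 :=
    Computable.list_append.comp (Computable.fst.comp Computable.fst)
      (Computable.fst.comp (Computable.snd.comp Computable.fst))
  have hc1 : Computable fun r : (List Bool × List Bool × List Bool) × ℕ => r.1.1 ++ r.1.2.2 :=
    Computable.list_append.comp (Computable.fst.comp Computable.fst)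
      (Computable.snd.comp (Computable.snd.comp Computable.fst))
  have h0 : ∀ b : Bool, DI {orc X} (fun r : (List Bool × List Bool × List Bool) × ℕ =>
      Y (r.1.1 ++ r.1.2.1) r.2 b) := fun b =>
    hYd.comp_computable (g := fun r : (List Bool × List Bool × List Bool) × ℕ =>
      (r.1.1 ++ r.1.2.1, r.2, b)) (hc0.pair (Computable.snd.pair (Computable.const b)))
  have h1 : ∀ b : Bool, DI {orc X} (fun r : (List Bool × List Bool × List Bool) × ℕ =>
      Y (r.1.1 ++ r.1.2.2) r.2 b) := fun b =>
    hYd.comp_computable (g := fun r : (List Bool × List Bool × List Bool) × ℕ =>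
      (r.1.1 ++ r.1.2.2, r.2, b)) (hc1.pair (Computable.snd.pair (Computable.const b)))
  exact DI.bex (((h0 true).and (h1 false)).or ((h0 false).and (h1 true)))
    (CI.of_computable (Computable.list_length.comp (Computable.fst.comp Computable.snd)))

theorem blocks_exist2 {X : ℕ → Bool} {Y : List Bool → ℕ → Bool → Prop} (hY : Name Y)
    (hYd : DI {orc X} (fun q : List Bool × ℕ × Bool => Y q.1 q.2.1 q.2.2))
    (hNC : NC Y) {D : ℕ → List Bool → Prop} (hD : DFam D)
    (hDd : DI {orc X} (fun q : ℕ × List Bool => D q.1 q.2)) :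
    ∃ w : ℕ → Bool → List Bool, Blk2 Y D w ∧
      CI {orc X} (fun q : ℕ × Bool => encode (w q.1 q.2)) := by
  let P : ℕ × ℕ → Prop := fun p =>
    (dl p.2.unpair.2).length = (dl p.2.unpair.1).length ∧ 0 < (dl p.2.unpair.1).length ∧
    ∀ c < 2 ^ p.1.unpair.1,
      Split Y (bs p.1.unpair.1 c) (dl p.2.unpair.1) (dl p.2.unpair.2) ∧
      D p.1.unpair.2 (bs p.1.unpair.1 c ++ dl p.2.unpair.1) ∧
      D p.1.unpair.2 (bs p.1.unpair.1 c ++ dl p.2.unpair.2)
  have c0 : Computable fun p : ℕ × ℕ => dl p.2.unpair.1 :=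
    dl_computable.comp (Computable.fst.comp (Computable.unpair.comp Computable.snd))
  have c1 : Computable fun p : ℕ × ℕ => dl p.2.unpair.2 :=
    dl_computable.comp (Computable.snd.comp (Computable.unpair.comp Computable.snd))
  have cN : Computable fun p : ℕ × ℕ => p.1.unpair.1 :=
    Computable.fst.comp (Computable.unpair.comp Computable.fst)
  have ci : Computable fun p : ℕ × ℕ => p.1.unpair.2 :=
    Computable.snd.comp (Computable.unpair.comp Computable.fst)
  have cb : Computable fun r : (ℕ × ℕ) × ℕ => bs r.1.1.unpair.1 r.2 :=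
    bs_computable.comp (cN.comp Computable.fst) Computable.snd
  have hP : DI {orc X} P := by
    refine DI.and (DI.eq (CI.of_computable (Computable.list_length.comp c1))
      (CI.of_computable (Computable.list_length.comp c0))) (DI.and (DI.lt (CI.const 0)
      (CI.of_computable (Computable.list_length.comp c0))) ?_)
    have hS : DI {orc X} (fun r : (ℕ × ℕ) × ℕ =>
        Split Y (bs r.1.1.unpair.1 r.2) (dl r.1.2.unpair.1) (dl r.1.2.unpair.2)) :=
      (di_Split hYd).comp_computable (g := fun r : (ℕ × ℕ) × ℕ =>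
        (bs r.1.1.unpair.1 r.2, dl r.1.2.unpair.1, dl r.1.2.unpair.2))
        (cb.pair ((c0.comp Computable.fst).pair (c1.comp Computable.fst)))
    have hD0 : DI {orc X} (fun r : (ℕ × ℕ) × ℕ =>
        D r.1.1.unpair.2 (bs r.1.1.unpair.1 r.2 ++ dl r.1.2.unpair.1)) :=
      hDd.comp_computable (g := fun r : (ℕ × ℕ) × ℕ =>
        (r.1.1.unpair.2, bs r.1.1.unpair.1 r.2 ++ dl r.1.2.unpair.1))
        ((ci.comp Computable.fst).pair (Computable.list_append.comp cb (c0.comp Computable.fst)))
    have hD1 : DI {orc X} (fun r : (ℕ × ℕ) × ℕ =>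
        D r.1.1.unpair.2 (bs r.1.1.unpair.1 r.2 ++ dl r.1.2.unpair.2)) :=
      hDd.comp_computable (g := fun r : (ℕ × ℕ) × ℕ =>
        (r.1.1.unpair.2, bs r.1.1.unpair.1 r.2 ++ dl r.1.2.unpair.2))
        ((ci.comp Computable.fst).pair (Computable.list_append.comp cb (c1.comp Computable.fst)))
    exact DI.ball (hS.and (hD0.and hD1)) (CI.pow (CI.const 2) (CI.of_computable cN))
  have hex : ∀ a, ∃ n, P (a, n) := by
    intro a
    obtain ⟨w₀, w₁, h1, h2, h3⟩ := block_exists2 hD hY hNC a.unpair.1 a.unpair.2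
    refine ⟨Nat.pair (encode w₀) (encode w₁), ?_⟩
    simp only [P, Nat.unpair_pair, dl_encode]
    exact ⟨h1, h2, fun c _ => h3 _ (bs_length _ _)⟩
  obtain ⟨c, hc, hcP⟩ := choice hP hex
  let N : ℕ → ℕ := fun n => Nat.rec 0
    (fun i Ni => Ni + (dl (c (Nat.pair Ni i)).unpair.1).length) n
  have hN0 : N 0 = 0 := rfl
  have hN1 : ∀ i, N (i + 1) = N i + (dl (c (Nat.pair (N i) i)).unpair.1).length := fun _ => rfl
  have hN : CI {orc X} N := by
    have h1 : CI {orc X} (fun p : ℕ × ℕ × ℕ =>
        p.2.2 + (dl (c (Nat.pair p.2.2 p.2.1)).unpair.1).length) := by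
      refine CI.add (CI.of_computable (Computable.snd.comp Computable.snd)) ?_
      have h2 : CI {orc X} (fun p : ℕ × ℕ × ℕ => (c (Nat.pair p.2.2 p.2.1)).unpair.1) :=
        CI.left (CI.comp hc (CI.npair (CI.of_computable (Computable.snd.comp Computable.snd))
          (CI.of_computable (Computable.fst.comp Computable.snd))))
      exact CI.computable_comp (h := fun n => (dl n).length)
        (Computable.list_length.comp dl_computable) h2
    exact CI.sub (CI.natRec (CI.const (O := {orc X}) (α := ℕ) 0) h1)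
      (CI.of_computable Computable.id)
  let w : ℕ → Bool → List Bool := fun i b =>
    if b = true then dl (c (Nat.pair (N i) i)).unpair.2 else dl (c (Nat.pair (N i) i)).unpair.1
  have hwt : ∀ i, w i true = dl (c (Nat.pair (N i) i)).unpair.2 := fun i => if_pos rfl
  have hwf : ∀ i, w i false = dl (c (Nat.pair (N i) i)).unpair.1 := fun i =>
    if_neg Bool.false_ne_true
  have hpos : ∀ i, bpos w i = N i := by
    intro i
    induction i with
    | zero => rfl
    | succ i ih => rw [bpos_succ, ih, hN1, hwf]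
  have hspec : ∀ i, (w i true).length = (w i false).length ∧ 0 < (w i false).length ∧
      ∀ σ : List Bool, σ.length = bpos w i → Split Y σ (w i false) (w i true) ∧
        D i (σ ++ w i false) ∧ D i (σ ++ w i true) := by
    intro i
    have h := hcP (Nat.pair (N i) i)
    simp only [P, Nat.unpair_pair] at h
    obtain ⟨h1, h2, h3⟩ := h
    rw [hwt, hwf]
    refine ⟨h1, h2, fun σ hσ => ?_⟩
    obtain ⟨d, hd, hdσ⟩ := bs_surj σ
    rw [hσ, hpos] at hd hdσ
    have h4 := h3 d hd
    rw [hdσ] at h4
    exact h4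
  refine ⟨w, ⟨fun i => (hspec i).1, fun i => (hspec i).2.1, fun i σ hσ => ((hspec i).2.2 σ hσ).1,
    fun i σ b hσ => ?_⟩, ?_⟩
  · cases b
    · exact ((hspec i).2.2 σ hσ).2.1
    · exact ((hspec i).2.2 σ hσ).2.2
  · have h1 : CI {orc X} (fun q : ℕ × Bool => c (Nat.pair (N q.1) q.1)) :=
      CI.comp hc (CI.npair (CI.comp hN (CI.of_computable Computable.fst))
        (CI.of_computable Computable.fst))
    have h2 : Computable fun n : ℕ => encode (dl n) := Computable.encode.comp dl_computable
    have h3 : DI {orc X} (fun q : ℕ × Bool => (encode q.2) = encode true) :=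
      DI.eq (CI.of_computable (Computable.encode.comp Computable.snd)) (CI.const _)
    have h4 : DI {orc X} (fun q : ℕ × Bool => q.2 = true) :=
      h3.of_iff fun a => ⟨fun h => by rw [h], fun h => Encodable.encode_injective h⟩
    refine (CI.ite h4 (CI.computable_comp h2 (CI.right h1))
      (CI.computable_comp h2 (CI.left h1))).congr fun q => ?_
    obtain ⟨i, b⟩ := q
    cases b
    · simp only [hwf]
      rfl
    · simp only [hwt]
      rfl

end Pool.Agent.MGen
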