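import Mathlib

/-!
# Baire category: Kuratowski–Ulam with one second countable factor; cylinders; reversal of blocks

`revb h` reverses the blocks of natural numbers which end at the ones of `h`. The two maps
`(c, h, w) ↦ (c ∘ revb h, h, w)` and `(c, h, w) ↦ (c, c ∘ revb h, w)` pull residual sets back to
residual sets.
-/

set_option autoImplicit false

namespace Pool.Agent.MGen

open Topology Filter Set TopologicalSpace

/-! ### Kuratowski–Ulam -/

section KU

variable {A B : Type} [TopologicalSpace A] [TopologicalSpace B]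

theorem ku_forward [SecondCountableTopology B] {R : Set (A × B)} (hR : R ∈ residual (A × B)) :
    ∀ᶠ a in residual A, ∀ᶠ b in residual B, (a, b) ∈ R := by
  rw [mem_residual_iff] at hR
  obtain ⟨S, hSo, hSd, hSc, hSR⟩ := hR
  have h1 : ∀ O ∈ S, ∀ W ∈ countableBasis B, ∀ᶠ a in residual A, ∃ b ∈ W, (a, b) ∈ O := by
    intro O hO W hW
    refine residual_of_dense_open (s := {a | ∃ b ∈ W, (a, b) ∈ O}) ?_ ?_
    · have h2 : {a | ∃ b ∈ W, (a, b) ∈ O} = Prod.fst '' (O ∩ (univ ×ˢ W)) := by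
        ext a
        constructor
        · rintro ⟨b, hb, hab⟩
          exact ⟨(a, b), ⟨hab, trivial, hb⟩, rfl⟩
        · rintro ⟨⟨a', b⟩, ⟨hab, -, hb⟩, rfl⟩
          exact ⟨b, hb, hab⟩
      rw [h2]
      exact isOpenMap_fst _ ((hSo O hO).inter
        (isOpen_univ.prod (isOpen_of_mem_countableBasis hW)))
    · rw [dense_iff_inter_open]
      intro V hV hVne
      obtain ⟨w, hw⟩ := nonempty_of_mem_countableBasis hW
      obtain ⟨v, hv⟩ := hVne
      obtain ⟨⟨a, b⟩, ⟨ha, hb⟩, hab⟩ := (hSd O hO).inter_open_nonempty (V ×ˢ W)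
        (hV.prod (isOpen_of_mem_countableBasis hW)) ⟨(v, w), hv, hw⟩
      exact ⟨a, ha, b, hb, hab⟩
  have h3 : ∀ᶠ a in residual A, ∀ O ∈ S, ∀ W ∈ countableBasis B, ∃ b ∈ W, (a, b) ∈ O := by
    rw [eventually_countable_ball hSc]
    intro O hO
    rw [eventually_countable_ball (countable_countableBasis B)]
    exact h1 O hO
  refine h3.mono fun a ha => ?_
  have h4 : ∀ O ∈ S, ∀ᶠ b in residual B, (a, b) ∈ O := by
    intro O hO
    refine residual_of_dense_open (s := {b | (a, b) ∈ O}) ?_ ?_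
    · exact (hSo O hO).preimage (Continuous.prodMk_right a)
    · rw [(isBasis_countableBasis B).dense_iff]
      rintro W hW -
      obtain ⟨b, hb, hab⟩ := ha O hO W hW
      exact ⟨b, hb, hab⟩
  have h5 : ∀ᶠ b in residual B, ∀ O ∈ S, (a, b) ∈ O := by
    rw [eventually_countable_ball hSc]
    exact h4
  exact h5.mono fun b hb => hSR (mem_sInter.2 hb)

/-- a Baire measurable set all of whose vertical sections are residual is residual -/
theorem ku_back [BaireSpace A] [BaireSpace B] [SecondCountableTopology B] {E : Set (A × B)}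
    (hE : BaireMeasurableSet E) (h : ∀ a, ∀ᶠ b in residual B, (a, b) ∈ E) :
    E ∈ residual (A × B) := by
  obtain ⟨U, hU, hEU⟩ := hE.compl.residualEq_isOpen
  have h1 : ∀ᶠ x in residual (A × B), (x ∈ Eᶜ ↔ x ∈ U) := eventuallyEq_set.1 hEU
  have h2 : U = ∅ := by
    by_contra hne
    obtain ⟨⟨a, b⟩, hab⟩ := nonempty_iff_ne_empty.2 hne
    obtain ⟨V, W, hV, hW, haV, hbW, hVW⟩ := isOpen_prod_iff.1 hU a b hab
    obtain ⟨a', haV', ha'⟩ := (dense_of_mem_residual (ku_forward h1)).inter_open_nonempty V hV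
      ⟨a, haV⟩
    have h3 : ∀ᶠ b in residual B, (a', b) ∉ U := by
      filter_upwards [ha', h a'] with b hb1 hb2 hb3
      exact hb1.2 hb3 hb2
    obtain ⟨b', hbW', hb'⟩ := (dense_of_mem_residual h3).inter_open_nonempty W hW ⟨b, hbW⟩
    exact hb' (hVW ⟨haV', hbW'⟩)
  refine mem_of_superset h1 fun x hx => ?_
  by_contra hx'
  have := hx.1 hx'
  rw [h2] at this
  exact this

/-- residual sets in terms of open sets -/
theorem tendsto_residual_of {f : A → B}
    (h : ∀ O : Set B, IsOpen O → Dense O → ∀ V : Set A, IsOpen V → V.Nonempty →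
      ∃ V' ⊆ V, IsOpen V' ∧ V'.Nonempty ∧ ∀ a ∈ V', f a ∈ O) :
    Tendsto f (residual A) (residual B) := by
  apply le_countableGenerate_iff_of_countableInterFilter.mpr
  rintro O ⟨hO, hOd⟩
  show f ⁻¹' O ∈ residual A
  refine mem_of_superset (residual_of_dense_open (s := interior (f ⁻¹' O)) isOpen_interior ?_)
    interior_subset
  rw [dense_iff_inter_open]
  intro V hV hVne
  obtain ⟨V', hV'V, hV'o, ⟨a, ha⟩, hV'⟩ := h O hO hOd V hV hVne
  exact ⟨a, hV'V ha, mem_interior.2 ⟨V', hV', hV'o, ha⟩⟩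

end KU

/-! ### Cylinders -/

section Cyl

variable {Z : Type} [TopologicalSpace Z] [DiscreteTopology Z]

/-- the sequences which agree with `x` below `n` -/
def cyl (n : ℕ) (x : ℕ → Z) : Set (ℕ → Z) := {y | ∀ j < n, y j = x j}

omit [TopologicalSpace Z] [DiscreteTopology Z] in
theorem self_mem_cyl (n : ℕ) (x : ℕ → Z) : x ∈ cyl n x := fun _ _ => rfl

theorem isOpen_cyl (n : ℕ) (x : ℕ → Z) : IsOpen (cyl n x) := by
  have h1 : cyl n x = ⋂ j ∈ Finset.range n, {y : ℕ → Z | y j = x j} := by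
    ext y
    simp [cyl]
  rw [h1]
  refine isOpen_biInter_finset fun j _ => ?_
  have h2 : Continuous fun y : ℕ → Z => y j := continuous_apply j
  exact (isOpen_discrete ({x j} : Set Z)).preimage h2

omit [DiscreteTopology Z] in
theorem exists_cyl {O : Set (ℕ → Z)} (hO : IsOpen O) {x : ℕ → Z} (hx : x ∈ O) :
    ∃ n, cyl n x ⊆ O := by
  rw [isOpen_pi_iff] at hO
  obtain ⟨I, u, hI, hu⟩ := hO x hx
  refine ⟨I.sup (fun i => i + 1), fun y hy => hu fun i hi => ?_⟩
  rw [hy i (lt_of_lt_of_le (Nat.lt_succ_self i) (Finset.le_sup (f := fun i => i + 1) hi))]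
  exact (hI i hi).2

omit [TopologicalSpace Z] [DiscreteTopology Z] in
theorem cyl_mono {n m : ℕ} {x y : ℕ → Z} (h : n ≤ m) (hxy : y ∈ cyl n x) : cyl m y ⊆ cyl n x :=
  fun _ hz j hj => (hz j (lt_of_lt_of_le hj h)).trans (hxy j hj)

end Cyl

/-! ### Reversal of blocks -/

/-- `[a, k]` is a block of `h` -/
def Blk (h : ℕ → Bool) (a k : ℕ) : Prop :=
  (a = 0 ∨ h (a - 1) = true) ∧ (∀ j < k, a ≤ j → h j = false) ∧ h k = true ∧ a ≤ k

theorem Blk.unique {h : ℕ → Bool} {a k a' k' j : ℕ} (hb : Blk h a k) (hb' : Blk h a' k')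
    (h1 : a ≤ j) (h2 : j ≤ k) (h1' : a' ≤ j) (h2' : j ≤ k') : a = a' ∧ k = k' := by
  obtain ⟨p1, p2, p3, p4⟩ := hb
  obtain ⟨q1, q2, q3, q4⟩ := hb'
  have hk : k = k' := by
    rcases lt_trichotomy k k' with hl | hl | hl
    · have := q2 k hl (by omega)
      rw [p3] at this
      cases this
    · exact hl
    · have := p2 k' hl (by omega)
      rw [q3] at this
      cases this
  subst hk
  refine ⟨?_, rfl⟩
  rcases lt_trichotomy a a' with hl | hl | hl
  · rcases q1 with q1 | q1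
    · omega
    · have := p2 (a' - 1) (by omega) (by omega)
      rw [q1] at this
      cases this
  · exact hl
  · rcases p1 with p1 | p1
    · omega
    · have := q2 (a - 1) (by omega) (by omega)
      rw [p1] at this
      cases this

theorem exists_blk {h : ℕ → Bool} {j : ℕ} (hex : ∃ k, j ≤ k ∧ h k = true) :
    ∃ a k, Blk h a k ∧ a ≤ j ∧ j ≤ k := by
  classical
  have hk := Nat.find_spec hex
  have hk' : ∀ i, j ≤ i → i < Nat.find hex → h i = false := by
    intro i hi hi'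
    have := Nat.find_min hex hi'
    push Not at this
    have h1 := this hi
    cases h2 : h i
    · rfl
    · exact absurd h2 h1
  -- the start of the block
  have hst : ∀ i, ∃ a, a ≤ i ∧ (a = 0 ∨ h (a - 1) = true) ∧ ∀ l, a ≤ l → l < i → h l = false := by
    intro i
    induction i with
    | zero => exact ⟨0, le_rfl, Or.inl rfl, fun l _ hl => absurd hl (Nat.not_lt_zero l)⟩
    | succ i ih =>
      cases hi : h i
      · obtain ⟨a, h1, h2, h3⟩ := ih
        refine ⟨a, by omega, h2, fun l hl hl' => ?_⟩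
        rcases Nat.lt_or_ge l i with hli | hli
        · exact h3 l hl hli
        · have : l = i := by omega
          rw [this, hi]
      · exact ⟨i + 1, le_rfl, Or.inr hi, fun l hl hl' => by omega⟩
  obtain ⟨a, h1, h2, h3⟩ := hst j
  refine ⟨a, Nat.find hex, ⟨h2, fun l hl hal => ?_, hk.2, by omega⟩, h1, hk.1⟩
  rcases Nat.lt_or_ge l j with hlj | hlj
  · exact h3 l hal hlj
  · exact hk' l hlj hl

/-- `h` has infinitely many ones -/
def Inf (h : ℕ → Bool) : Prop := ∀ j, ∃ k, j ≤ k ∧ h k = true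

open Classical in
/-- the reversal of the blocks of `h` -/
noncomputable def revb (h : ℕ → Bool) (j : ℕ) : ℕ :=
  if H : ∃ q : ℕ × ℕ, Blk h q.1 q.2 ∧ q.1 ≤ j ∧ j ≤ q.2 then H.choose.1 + H.choose.2 - j else j

theorem revb_eq {h : ℕ → Bool} {a k j : ℕ} (hb : Blk h a k) (h1 : a ≤ j) (h2 : j ≤ k) :
    revb h j = a + k - j := by
  have H : ∃ q : ℕ × ℕ, Blk h q.1 q.2 ∧ q.1 ≤ j ∧ j ≤ q.2 := ⟨(a, k), hb, h1, h2⟩
  unfold revb
  rw [dif_pos H]
  obtain ⟨e1, e2⟩ := hb.unique H.choose_spec.1 h1 h2 H.choose_spec.2.1 H.choose_spec.2.2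
  rw [← e1, ← e2]

/-- `n` is the end of the blocks below `n` -/
def Cut (h : ℕ → Bool) (n : ℕ) : Prop := n = 0 ∨ h (n - 1) = true

theorem Cut.blk {h : ℕ → Bool} {n j : ℕ} (hn : Cut h n) (hj : j < n) :
    ∃ a k, Blk h a k ∧ a ≤ j ∧ j ≤ k ∧ k < n := by
  have h0 : h (n - 1) = true := by
    rcases hn with hn | hn
    · omega
    · exact hn
  obtain ⟨a, k, hb, h1, h2⟩ := exists_blk (h := h) (j := j) ⟨n - 1, by omega, h0⟩
  refine ⟨a, k, hb, h1, h2, ?_⟩
  by_contra hk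
  have := hb.2.1 (n - 1) (by omega) (by omega)
  rw [h0] at this
  cases this

theorem Blk.congr {h h' : ℕ → Bool} {a k n : ℕ} (hb : Blk h a k) (hk : k < n)
    (hh : h' ∈ cyl n h) : Blk h' a k := by
  obtain ⟨p1, p2, p3, p4⟩ := hb
  refine ⟨?_, ?_, ?_, p4⟩
  · rcases p1 with p1 | p1
    · exact Or.inl p1
    · right
      rw [hh (a - 1) (by omega)]
      exact p1
  · intro j hj haj
    rw [hh j (by omega)]
    exact p2 j hj haj
  · rw [hh k hk]
    exact p3

theorem Cut.revb_lt {h : ℕ → Bool} {n j : ℕ} (hn : Cut h n) (hj : j < n) : revb h j < n := by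
  obtain ⟨a, k, hb, h1, h2, h3⟩ := hn.blk hj
  rw [revb_eq hb h1 h2]
  omega

theorem Cut.revb_congr {h h' : ℕ → Bool} {n j : ℕ} (hn : Cut h n) (hj : j < n)
    (hh : h' ∈ cyl n h) : revb h' j = revb h j := by
  obtain ⟨a, k, hb, h1, h2, h3⟩ := hn.blk hj
  rw [revb_eq hb h1 h2, revb_eq (hb.congr h3 hh) h1 h2]

theorem Cut.revb_revb {h : ℕ → Bool} {n j : ℕ} (hn : Cut h n) (hj : j < n) :
    revb h (revb h j) = j := by
  obtain ⟨a, k, hb, h1, h2, h3⟩ := hn.blk hj
  rw [revb_eq hb h1 h2, revb_eq hb (by omega) (by omega)]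
  omega

theorem Cut.congr {h h' : ℕ → Bool} {n : ℕ} (hn : Cut h n) (hh : h' ∈ cyl n h) : Cut h' n := by
  rcases hn with hn | hn
  · exact Or.inl hn
  · rcases Nat.eq_zero_or_pos n with h0 | h0
    · exact Or.inl h0
    · right
      rw [hh (n - 1) (by omega)]
      exact hn

theorem Inf.revb_revb {h : ℕ → Bool} (hh : Inf h) (j : ℕ) : revb h (revb h j) = j := by
  obtain ⟨k, hk, hk'⟩ := hh j
  exact Cut.revb_revb (n := k + 1) (Or.inr hk') (by omega)

/-! ### The two maps -/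

section Maps

variable {X W : Type} [TopologicalSpace X] [DiscreteTopology X] [TopologicalSpace W]

/-- `(c, h, w) ↦ (c ∘ revb h, h, w)` -/
noncomputable def mapT (x : (ℕ → X) × (ℕ → Bool) × W) : (ℕ → X) × (ℕ → Bool) × W :=
  (fun j => x.1 (revb x.2.1 j), x.2.1, x.2.2)

/-- `(c, h, w) ↦ ((c, c ∘ revb h), w)` -/
noncomputable def mapS (x : (ℕ → X) × (ℕ → Bool) × W) : ((ℕ → X) × (ℕ → X)) × W :=
  ((x.1, fun j => x.1 (revb x.2.1 j)), x.2.2)

omit [DiscreteTopology X] in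
/-- nonempty open sets contain boxes given by conditions -/
theorem exists_box {V : Set ((ℕ → X) × (ℕ → Bool) × W)} (hV : IsOpen V)
    {x : (ℕ → X) × (ℕ → Bool) × W} (hx : x ∈ V) (m : ℕ) :
    ∃ (n : ℕ) (h : ℕ → Bool) (N : Set W), m ≤ n ∧ Cut h n ∧ h ∈ cyl m x.2.1 ∧ IsOpen N ∧
      x.2.2 ∈ N ∧ cyl n x.1 ×ˢ cyl n h ×ˢ N ⊆ V := by
  obtain ⟨c, h, w⟩ := x
  obtain ⟨V1, V2, hV1, hV2, hc, hhw, hV12⟩ := isOpen_prod_iff.1 hV c (h, w) hx
  obtain ⟨V3, N, hV3, hN, hh, hw, hV3N⟩ := isOpen_prod_iff.1 hV2 h w hhw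
  obtain ⟨n1, hn1⟩ := exists_cyl hV1 hc
  obtain ⟨n2, hn2⟩ := exists_cyl hV3 hh
  let n0 := max m (max n1 n2)
  have e0 : m ≤ n0 := le_max_left _ _
  have e1 : n1 ≤ n0 := le_trans (le_max_left _ _) (le_max_right _ _)
  have e2 : n2 ≤ n0 := le_trans (le_max_right _ _) (le_max_right _ _)
  have hupd : ∀ j < n0, Function.update h n0 true j = h j := fun j hj =>
    Function.update_of_ne (ne_of_lt hj) _ _
  refine ⟨n0 + 1, Function.update h n0 true, N, by omega, ?_, ?_, hN, hw, ?_⟩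
  · right
    rw [Nat.add_sub_cancel, Function.update_self]
  · intro j hj
    exact hupd j (by omega)
  · rintro ⟨c', h', w'⟩ ⟨hc', hh', hw'⟩
    refine hV12 ⟨hn1 fun j hj => hc' j (by omega), hV3N ⟨hn2 fun j hj => ?_, hw'⟩⟩
    have := hh' j (by omega)
    rw [hupd j (by omega)] at this
    exact this

theorem mapT_tendsto : Tendsto (mapT (X := X) (W := W)) (residual _) (residual _) := by
  refine tendsto_residual_of fun O hO hOd V hV hVne => ?_
  obtain ⟨⟨c0, h0', w0⟩, hx⟩ := hVne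
  obtain ⟨n, h0, N, -, hcut, -, hN, hw0, hbox⟩ := exists_box hV hx 0
  simp only at hw0 hbox
  obtain ⟨⟨c1, h1', w1⟩, ⟨hc1, hh1', hw1⟩, hO1⟩ := hOd.inter_open_nonempty
    (cyl n (fun j => c0 (revb h0 j)) ×ˢ cyl n h0 ×ˢ N)
    ((isOpen_cyl _ _).prod ((isOpen_cyl _ _).prod hN))
    ⟨(_, h0, w0), self_mem_cyl _ _, self_mem_cyl _ _, hw0⟩
  obtain ⟨m, h1, N', hnm, hcut1, hh1, hN', hw1', hbox'⟩ := exists_box (hO.inter
    ((isOpen_cyl n (fun j => c0 (revb h0 j))).prod ((isOpen_cyl n h0).prod hN)))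
    (x := (c1, h1', w1)) ⟨hO1, hc1, hh1', hw1⟩ n
  simp only at hc1 hh1' hw1 hh1 hw1' hbox'
  have hh10 : h1 ∈ cyl n h0 := fun j hj => (hh1 j hj).trans (hh1' j hj)
  have hN'N : N' ⊆ N := fun w hw =>
    ((hbox' (show (c1, h1, w) ∈ cyl m c1 ×ˢ cyl m h1 ×ˢ N' from
      ⟨self_mem_cyl _ _, self_mem_cyl _ _, hw⟩)).2).2.2
  refine ⟨cyl m (fun j => c1 (revb h1 j)) ×ˢ cyl m h1 ×ˢ N', ?_,
    (isOpen_cyl _ _).prod ((isOpen_cyl _ _).prod hN'),
    ⟨(_, h1, w1), self_mem_cyl _ _, self_mem_cyl _ _, hw1'⟩, ?_⟩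
  · rintro ⟨c, h, w⟩ ⟨hc, hh, hw⟩
    refine hbox ⟨fun j hj => ?_, fun j hj => (hh j (by omega)).trans (hh10 j hj), hN'N hw⟩
    have e1 : revb h1 j = revb h0 j := hcut.revb_congr hj hh10
    have e2 : c j = c1 (revb h1 j) := hc j (by omega)
    have e3 : c1 (revb h0 j) = c0 (revb h0 (revb h0 j)) := hc1 _ (hcut.revb_lt hj)
    show c j = c0 j
    rw [e2, e1, e3, hcut.revb_revb hj]
  · rintro ⟨c, h, w⟩ ⟨hc, hh, hw⟩
    refine (hbox' (show mapT (c, h, w) ∈ cyl m c1 ×ˢ cyl m h1 ×ˢ N' from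
      ⟨fun j hj => ?_, hh, hw⟩)).1
    show c (revb h j) = c1 j
    have e1 : revb h j = revb h1 j := hcut1.revb_congr hj hh
    have e2 : c (revb h1 j) = c1 (revb h1 (revb h1 j)) := hc (revb h1 j) (hcut1.revb_lt hj)
    rw [e1, e2, hcut1.revb_revb hj]

omit [TopologicalSpace X] [DiscreteTopology X] in
/-- two sequences as a sequence and its block reversal -/
theorem shuffle (n m : ℕ) (hnm : n ≤ m) (h0 : ℕ → Bool) (hcut : Cut h0 n) (c1 c2 : ℕ → X)
    (hc : ∀ j < n, c1 (revb h0 j) = c2 j) :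
    ∃ (M : ℕ) (h : ℕ → Bool) (c : ℕ → X), m ≤ M ∧ Cut h M ∧ h ∈ cyl n h0 ∧ c ∈ cyl m c1 ∧
      (fun j => c (revb h j)) ∈ cyl m c2 := by
  -- the block `[n, 2 * m]`
  let h : ℕ → Bool := fun j => if j < n then h0 j else decide (j = 2 * m)
  let c : ℕ → X := fun j => if j < m then c1 j else c2 (n + 2 * m - j)
  have hh : h ∈ cyl n h0 := fun j hj => if_pos hj
  have hblk : Blk h n (2 * m) := by
    refine ⟨?_, fun j hj hnj => ?_, ?_, by omega⟩
    · rcases hcut with h1 | h1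
      · exact Or.inl h1
      · rcases Nat.eq_zero_or_pos n with h2 | h2
        · exact Or.inl h2
        · right
          rw [hh (n - 1) (by omega)]
          exact h1
    · show (if j < n then h0 j else decide (j = 2 * m)) = false
      rw [if_neg (by omega), decide_eq_false (by omega)]
    · show (if 2 * m < n then h0 (2 * m) else decide (2 * m = 2 * m)) = true
      rw [if_neg (by omega), decide_eq_true rfl]
  refine ⟨2 * m + 1, h, c, by omega, ?_, hh, fun j hj => if_pos hj, fun j hj => ?_⟩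
  · right
    rw [Nat.add_sub_cancel]
    exact hblk.2.2.1
  · show c (revb h j) = c2 j
    rcases Nat.lt_or_ge j n with hj' | hj'
    · have e1 : revb h j = revb h0 j := hcut.revb_congr hj' hh
      have e2 := hcut.revb_lt hj'
      rw [e1]
      show (if revb h0 j < m then c1 (revb h0 j) else _) = c2 j
      rw [if_pos (by omega)]
      exact hc j hj'
    · rw [revb_eq hblk hj' (by omega)]
      show (if n + 2 * m - j < m then _ else c2 (n + 2 * m - (n + 2 * m - j))) = c2 j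
      rw [if_neg (by omega)]
      congr 1
      omega

theorem mapS_box {O : Set (((ℕ → X) × (ℕ → X)) × W)} (hO : IsOpen O) (n : ℕ) (h0 : ℕ → Bool)
    (hcut : Cut h0 n) (c1 c2 : ℕ → X) (w : W) (hc : ∀ j < n, c1 (revb h0 j) = c2 j)
    (N : Set W) (hN : IsOpen N) (hw : w ∈ N) (hx : ((c1, c2), w) ∈ O) :
    ∃ (M : ℕ) (h : ℕ → Bool) (c : ℕ → X) (N' : Set W), n ≤ M ∧ h ∈ cyl n h0 ∧ c ∈ cyl n c1 ∧
      IsOpen N' ∧ w ∈ N' ∧ N' ⊆ N ∧ ∀ x ∈ cyl M c ×ˢ cyl M h ×ˢ N', mapS x ∈ O := by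
  obtain ⟨V1, N1, hV1, hN1, hc12, hw1, hV1N1⟩ := isOpen_prod_iff.1 hO (c1, c2) w hx
  obtain ⟨V2, V3, hV2, hV3, hc1, hc2, hV23⟩ := isOpen_prod_iff.1 hV1 c1 c2 hc12
  obtain ⟨n1, hn1⟩ := exists_cyl hV2 hc1
  obtain ⟨n2, hn2⟩ := exists_cyl hV3 hc2
  let m := max n (max n1 n2)
  have e0 : n ≤ m := le_max_left _ _
  have e1 : n1 ≤ m := le_trans (le_max_left _ _) (le_max_right _ _)
  have e2 : n2 ≤ m := le_trans (le_max_right _ _) (le_max_right _ _)
  obtain ⟨M, h, c, hmM, hcutM, hh, hcm, hcr⟩ := shuffle n m e0 h0 hcut c1 c2 hc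
  refine ⟨M, h, c, N1 ∩ N, by omega, hh, fun j hj => hcm j (by omega), hN1.inter hN,
    ⟨hw1, hw⟩, inter_subset_right, ?_⟩
  rintro ⟨c', h', w'⟩ ⟨hc', hh', hw'⟩
  refine hV1N1 ⟨hV23 ⟨hn1 fun j hj => ?_, hn2 fun j hj => ?_⟩, hw'.1⟩
  · exact (hc' j (by omega)).trans (hcm j (by omega))
  · show c' (revb h' j) = c2 j
    have hjM : j < M := by omega
    have e3 : revb h' j = revb h j := hcutM.revb_congr hjM hh'
    have e4 : c' (revb h j) = c (revb h j) := hc' _ (hcutM.revb_lt hjM)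
    rw [e3, e4]
    exact hcr j (by omega)

theorem mapS_tendsto : Tendsto (mapS (X := X) (W := W)) (residual _) (residual _) := by
  refine tendsto_residual_of fun O hO hOd V hV hVne => ?_
  obtain ⟨⟨c0, h0', w0⟩, hx⟩ := hVne
  obtain ⟨n, h0, N, -, hcut, -, hN, hw0, hbox⟩ := exists_box hV hx 0
  simp only at hw0 hbox
  obtain ⟨⟨⟨c1, c2⟩, w⟩, ⟨⟨hc1, hc2⟩, hw⟩, hO1⟩ := hOd.inter_open_nonempty
    ((cyl n c0 ×ˢ cyl n (fun j => c0 (revb h0 j))) ×ˢ N)
    (((isOpen_cyl _ _).prod (isOpen_cyl _ _)).prod hN)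
    ⟨((_, _), w0), ⟨self_mem_cyl _ _, self_mem_cyl _ _⟩, hw0⟩
  obtain ⟨M, h, c, N', hnM, hh, hc, hN', hw', hN'N, hbox'⟩ := mapS_box hO n h0 hcut c1 c2 w
    (fun j hj => (hc1 _ (hcut.revb_lt hj)).trans (hc2 j hj).symm) N hN hw hO1
  refine ⟨cyl M c ×ˢ cyl M h ×ˢ N', ?_, (isOpen_cyl _ _).prod ((isOpen_cyl _ _).prod hN'),
    ⟨(_, _, w), self_mem_cyl _ _, self_mem_cyl _ _, hw'⟩, hbox'⟩
  rintro ⟨c', h', w'⟩ ⟨hc', hh', hw''⟩
  exact hbox ⟨cyl_mono hnM (fun j hj => (hc j hj).trans (hc1 j hj)) hc', cyl_mono hnM hh hh',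
    hN'N hw''⟩

/-- a nonempty open set has a preimage with interior -/
theorem mapS_open {O : Set (((ℕ → X) × (ℕ → X)) × W)} (hO : IsOpen O) (hne : O.Nonempty) :
    ∃ V : Set ((ℕ → X) × (ℕ → Bool) × W), IsOpen V ∧ V.Nonempty ∧ ∀ x ∈ V, mapS x ∈ O := by
  obtain ⟨⟨⟨c1, c2⟩, w⟩, hx⟩ := hne
  obtain ⟨M, h, c, N', -, -, -, hN', hw', -, hbox'⟩ := mapS_box hO 0 (fun _ => false)
    (Or.inl rfl) c1 c2 w (fun j hj => absurd hj (Nat.not_lt_zero j)) univ isOpen_univ trivial hx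
  exact ⟨cyl M c ×ˢ cyl M h ×ˢ N', (isOpen_cyl _ _).prod ((isOpen_cyl _ _).prod hN'),
    ⟨(_, _, w), self_mem_cyl _ _, self_mem_cyl _ _, hw'⟩, hbox'⟩

end Maps

/-- comeager many reals have infinitely many ones -/
theorem inf_residual : ∀ᶠ h in residual (ℕ → Bool), Inf h := by
  have h1 : ∀ j : ℕ, ∀ᶠ h in residual (ℕ → Bool), ∃ k, j ≤ k ∧ h k = true := by
    intro j
    refine residual_of_dense_open (s := {h : ℕ → Bool | ∃ k, j ≤ k ∧ h k = true}) ?_ ?_
    · have h2 : {h : ℕ → Bool | ∃ k, j ≤ k ∧ h k = true} = ⋃ k ∈ {k | j ≤ k},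
          {h : ℕ → Bool | h k = true} := by
        ext h
        simp
      rw [h2]
      refine isOpen_biUnion fun k _ => ?_
      have h3 : Continuous fun y : ℕ → Bool => y k := continuous_apply k
      exact (isOpen_discrete ({true} : Set Bool)).preimage h3
    · rw [dense_iff_inter_open]
      rintro V hV ⟨h, hh⟩
      obtain ⟨n, hn⟩ := exists_cyl hV hh
      refine ⟨Function.update h (max n j) true, hn fun i hi => ?_, max n j, le_max_right _ _, ?_⟩
      · exact Function.update_of_ne (ne_of_lt (lt_of_lt_of_le hi (le_max_left _ _))) _ _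
      · exact Function.update_self _ _ _
  exact eventually_countable_forall.2 h1

end Pool.Agent.MGen
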