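import Pool.Agent.Lib.MGen.Rev

/-!
# Functions which are constant on Cohen generics are constant on a cofinal set

If `φ` is Borel and invariant and for all `b` above `z` there is a degree `d` with `φ (b ⊕ g) ∈ d`
for comeager many `g`, then some value of `φ` is taken cofinally. Baire category on the countable
sequences of reals, with the discrete topology on the reals.
-/

set_option autoImplicit false

namespace Pool.Agent.MGen

open Topology Filter Set TopologicalSpace Pool.Agent.GammaZero Pool.Agent.Mart Encodable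

/-- the reals with the discrete topology -/
def DX : Type := ℕ → Bool

instance : TopologicalSpace DX := ⊥

instance : DiscreteTopology DX := ⟨rfl⟩

instance : Nonempty DX := ⟨fun _ => false⟩

/-- `(c, g) ↦ (z ⊕ ⨁ c n) ⊕ g` -/
def kap (z : ℕ → Bool) (x : (ℕ → DX) × (ℕ → Bool)) : ℕ → Bool :=
  bjoin (bjoin z (cjoin x.1)) x.2

theorem continuous_kap (z : ℕ → Bool) : Continuous (kap z) := by
  refine continuous_pi fun n => ?_
  by_cases h : n % 2 = 0
  · by_cases h' : n / 2 % 2 = 0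
    · have e1 : (fun x : (ℕ → DX) × (ℕ → Bool) => kap z x n) = fun _ => z (n / 2 / 2) := by
        funext x
        unfold kap bjoin
        rw [if_pos h, if_pos h']
      rw [e1]
      exact continuous_const
    · have e1 : (fun x : (ℕ → DX) × (ℕ → Bool) => kap z x n) = fun x =>
          (fun r : DX => (show ℕ → Bool from r) (n / 2 / 2).unpair.2)
            (x.1 (n / 2 / 2).unpair.1) := by
        funext x
        unfold kap bjoin
        rw [if_pos h, if_neg h']
        rfl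
      rw [e1]
      have e2 : Continuous fun r : DX => (show ℕ → Bool from r) (n / 2 / 2).unpair.2 :=
        continuous_of_discreteTopology
      have e3 : Continuous fun x : (ℕ → DX) × (ℕ → Bool) => x.1 (n / 2 / 2).unpair.1 :=
        (continuous_apply _).comp continuous_fst
      exact e2.comp e3
  · have e1 : (fun x : (ℕ → DX) × (ℕ → Bool) => kap z x n) = fun x => x.2 (n / 2) := by
      funext x
      unfold kap bjoin
      rw [if_neg h]
    rw [e1]
    exact (continuous_apply _).comp continuous_snd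

/-! ### Measurability of Turing reducibility -/

theorem measurable_bit (k : ℕ) (b : Bool) : MeasurableSet {y : ℕ → Bool | y k = b} := by
  have h1 : Measurable fun y : ℕ → Bool => y k := measurable_pi_apply k
  exact h1 (MeasurableSet.singleton b)

theorem measurable_idx (e : ℕ) :
    MeasurableSet {q : (ℕ → Bool) × (ℕ → Bool) | Idx q.1 e q.2} := by
  have h1 : {q : (ℕ → Bool) × (ℕ → Bool) | Idx q.1 e q.2} = ⋂ k : ℕ, ⋃ t : ℕ,
      ((Prod.fst ⁻¹' {A : ℕ → Bool | U A e k t 1} ∩ Prod.snd ⁻¹' {y : ℕ → Bool | y k = true}) ∪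
      (Prod.fst ⁻¹' {A : ℕ → Bool | U A e k t 0} ∩ Prod.snd ⁻¹' {y : ℕ → Bool | y k = false})) := by
    ext q
    simp only [Idx, mem_iInter, mem_iUnion, mem_union, mem_inter_iff, mem_preimage, mem_ofPred_eq]
    refine forall_congr' fun k => exists_congr fun t => ?_
    cases q.2 k <;> simp
  rw [h1]
  refine MeasurableSet.iInter fun k => MeasurableSet.iUnion fun t => MeasurableSet.union ?_ ?_
  · exact (measurable_fst (measurable_U e k t 1)).inter (measurable_snd (measurable_bit k true))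
  · exact (measurable_fst (measurable_U e k t 0)).inter (measurable_snd (measurable_bit k false))

theorem measurable_tr : MeasurableSet {q : (ℕ → Bool) × (ℕ → Bool) | TR q.2 q.1} := by
  have h1 : {q : (ℕ → Bool) × (ℕ → Bool) | TR q.2 q.1} =
      ⋃ e : ℕ, {q : (ℕ → Bool) × (ℕ → Bool) | Idx q.1 e q.2} := by
    ext q
    simp only [mem_ofPred_eq, mem_iUnion]
    exact tr_iff_idx
  rw [h1]
  exact MeasurableSet.iUnion measurable_idx

theorem bm_pair {Ω : Type} [TopologicalSpace Ω] {φ : (ℕ → Bool) → (ℕ → Bool)}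
    (hφ : Measurable φ) {k₁ k₂ : Ω → (ℕ → Bool)} (h1 : Continuous k₁) (h2 : Continuous k₂)
    {E : Set ((ℕ → Bool) × (ℕ → Bool))} (hE : MeasurableSet E) :
    BaireMeasurableSet {x : Ω | (φ (k₁ x), φ (k₂ x)) ∈ E} := by
  borelize Ω
  exact (((hφ.comp h1.measurable).prodMk (hφ.comp h2.measurable)) hE).baireMeasurableSet

theorem bm_one {Ω : Type} [TopologicalSpace Ω] {φ : (ℕ → Bool) → (ℕ → Bool)}
    (hφ : Measurable φ) {k : Ω → (ℕ → Bool)} (h : Continuous k)
    {E : Set (ℕ → Bool)} (hE : MeasurableSet E) : BaireMeasurableSet {x : Ω | φ (k x) ∈ E} := by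
  borelize Ω
  exact ((hφ.comp h.measurable) hE).baireMeasurableSet

/-! ### Comparable values are constant -/

theorem const_of_residual {Ω : Type} [TopologicalSpace Ω] [Nonempty Ω]
    [BaireSpace (Ω × Ω)] {φ : (ℕ → Bool) → (ℕ → Bool)} (hφ : Measurable φ) {k : Ω → (ℕ → Bool)}
    (hk : Continuous k) (hQ : ∀ᶠ x in residual (Ω × Ω), TR (φ (k x.1)) (φ (k x.2))) :
    ∃ (W : Set Ω) (d : ℕ → Bool), IsOpen W ∧ W.Nonempty ∧
      ∀ᶠ x in residual Ω, x ∈ W → φ (k x) = d := by
  have tf : Tendsto (Prod.fst : Ω × Ω → Ω) (residual (Ω × Ω)) (residual Ω) :=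
    tendsto_residual_of_isOpenMap continuous_fst isOpenMap_fst
  have ts : Tendsto (Prod.snd : Ω × Ω → Ω) (residual (Ω × Ω)) (residual Ω) :=
    tendsto_residual_of_isOpenMap continuous_snd isOpenMap_snd
  have hBM : ∀ e : ℕ, ∃ V : Set (Ω × Ω), IsOpen V ∧
      ∀ᶠ x in residual (Ω × Ω), (Idx (φ (k x.2)) e (φ (k x.1)) ↔ x ∈ V) := by
    intro e
    obtain ⟨V, hV, hV'⟩ := (bm_pair hφ (hk.comp continuous_snd) (hk.comp continuous_fst)
      (Ω := Ω × Ω) (measurable_idx e)).residualEq_isOpen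
    exact ⟨V, hV, eventuallyEq_set.1 hV'⟩
  choose V hVo hV using hBM
  obtain ⟨e, ⟨x1, x2⟩, hx⟩ : ∃ e, (V e).Nonempty := by
    by_contra hcon
    push Not at hcon
    have h1 : ∀ᶠ x in residual (Ω × Ω), False := by
      filter_upwards [hQ, eventually_countable_forall.2 hV] with x h2 h3
      obtain ⟨e, he⟩ := exists_idx h2
      have h4 := (h3 e).1 he
      rw [hcon e] at h4
      exact h4
    obtain ⟨x, hx⟩ := (dense_of_mem_residual h1).nonempty
    exact hx
  obtain ⟨W1, W2, hW1, hW2, hx1, hx2, hW12⟩ := isOpen_prod_iff.1 (hVo e) x1 x2 hx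
  refine ⟨W1, ?_⟩
  have hbit : ∀ n : ℕ, ∃ b : Bool, ∀ᶠ x in residual Ω, x ∈ W1 → φ (k x) n = b := by
    intro n
    obtain ⟨V1, hV1, hV1'⟩ := (bm_one hφ hk (measurable_bit n true)).residualEq_isOpen
    obtain ⟨V0, hV0, hV0'⟩ := (bm_one hφ hk (measurable_bit n false)).residualEq_isOpen
    have p1 : ∀ᶠ x in residual Ω, (φ (k x) n = true ↔ x ∈ V1) := eventuallyEq_set.1 hV1'
    have p0 : ∀ᶠ x in residual Ω, (φ (k x) n = false ↔ x ∈ V0) := eventuallyEq_set.1 hV0'
    have hN : MeasurableSet {A : ℕ → Bool | ∃ t, U A e n t 1} := by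
      have h1 : {A : ℕ → Bool | ∃ t, U A e n t 1} = ⋃ t, {A : ℕ → Bool | U A e n t 1} := by
        ext A
        simp
      rw [h1]
      exact MeasurableSet.iUnion fun t => measurable_U e n t 1
    obtain ⟨O1, hO1, hO1'⟩ := (bm_one hφ hk hN).residualEq_isOpen
    have pN : ∀ᶠ x in residual Ω, ((∃ t, U (φ (k x)) e n t 1) ↔ x ∈ O1) := eventuallyEq_set.1 hO1'
    by_cases hA : (V1 ∩ W1).Nonempty
    · by_cases hB : (V0 ∩ W1).Nonempty
      · exfalso
        obtain ⟨a1, ha1⟩ := hA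
        obtain ⟨a0, ha0⟩ := hB
        by_cases hC : (O1 ∩ W2).Nonempty
        · obtain ⟨o, ho⟩ := hC
          have h1 : ∀ᶠ x in residual (Ω × Ω), ((Idx (φ (k x.2)) e (φ (k x.1)) ↔ x ∈ V e) ∧
              (φ (k x.1) n = false ↔ x.1 ∈ V0)) ∧ ((∃ t, U (φ (k x.2)) e n t 1) ↔ x.2 ∈ O1) :=
            ((hV e).and (tf.eventually p0)).and (ts.eventually pN)
          obtain ⟨⟨y1, y2⟩, ⟨hy1, hy2⟩, ⟨h2, h3⟩, h4⟩ :=
            (dense_of_mem_residual h1).inter_open_nonempty ((V0 ∩ W1) ×ˢ (O1 ∩ W2))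
              ((hV0.inter hW1).prod (hO1.inter hW2)) ⟨(a0, o), ha0, ho⟩
          obtain ⟨t, ht⟩ := h2.2 (hW12 ⟨hy1.2, hy2.2⟩) n
          obtain ⟨t', ht'⟩ := h4.2 hy2.1
          simp only at ht ht'
          rw [h3.2 hy1.1] at ht
          have := ht.unique ht'
          simp at this
        · have h1 : ∀ᶠ x in residual (Ω × Ω), ((Idx (φ (k x.2)) e (φ (k x.1)) ↔ x ∈ V e) ∧
              (φ (k x.1) n = true ↔ x.1 ∈ V1)) ∧ ((∃ t, U (φ (k x.2)) e n t 1) ↔ x.2 ∈ O1) :=
            ((hV e).and (tf.eventually p1)).and (ts.eventually pN)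
          obtain ⟨⟨y1, y2⟩, ⟨hy1, hy2⟩, ⟨h2, h3⟩, h4⟩ :=
            (dense_of_mem_residual h1).inter_open_nonempty ((V1 ∩ W1) ×ˢ W2)
              ((hV1.inter hW1).prod hW2) ⟨(a1, x2), ha1, hx2⟩
          obtain ⟨t, ht⟩ := h2.2 (hW12 ⟨hy1.2, hy2⟩) n
          simp only at ht
          rw [h3.2 hy1.1] at ht
          exact hC ⟨y2, h4.1 ⟨t, ht⟩, hy2⟩
      · refine ⟨true, p0.mono fun x hx hxW => ?_⟩
        cases h : φ (k x) n
        · exact absurd ⟨x, hx.1 h, hxW⟩ hB
        · rfl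
    · refine ⟨false, p1.mono fun x hx hxW => ?_⟩
      cases h : φ (k x) n
      · rfl
      · exact absurd ⟨x, hx.1 h, hxW⟩ hA
  choose d hd using hbit
  refine ⟨d, hW1, ⟨x1, hx1⟩, ?_⟩
  exact (eventually_countable_forall.2 hd).mono fun x hx hxW => funext fun n => hx n hxW

theorem tendsto_fst_residual (A B : Type) [TopologicalSpace A] [TopologicalSpace B] :
    Tendsto (Prod.fst : A × B → A) (residual (A × B)) (residual A) :=
  tendsto_residual_of_isOpenMap continuous_fst isOpenMap_fst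

theorem tendsto_snd_residual (A B : Type) [TopologicalSpace A] [TopologicalSpace B] :
    Tendsto (Prod.snd : A × B → B) (residual (A × B)) (residual B) :=
  tendsto_residual_of_isOpenMap continuous_snd isOpenMap_snd

/-! ### The theorem -/

theorem const_of_generic {φ : (ℕ → Bool) → (ℕ → Bool)} (hφ : Measurable φ)
    (hinv : ∀ A B, Eqv A B → TR (φ A) (φ B)) {z : ℕ → Bool}
    (hK : ∀ b, TR z b → ∃ d : ℕ → Bool, ∀ᶠ g in residual (ℕ → Bool), Eqv (φ (bjoin b g)) d) :
    ∃ d : ℕ → Bool, ∀ w, ∃ a, TR w a ∧ φ a = d := by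
  -- the values at `(c, g)` and `(c, h)` are comparable
  have hE1 : ∀ᶠ x in residual ((ℕ → DX) × (ℕ → Bool) × (ℕ → Bool)),
      TR (φ (kap z (x.1, x.2.1))) (φ (kap z (x.1, x.2.2))) := by
    refine ku_back (E := {x : (ℕ → DX) × (ℕ → Bool) × (ℕ → Bool) |
      TR (φ (kap z (x.1, x.2.1))) (φ (kap z (x.1, x.2.2)))}) ?_ ?_
    · exact bm_pair hφ (k₁ := fun x : (ℕ → DX) × (ℕ → Bool) × (ℕ → Bool) => kap z (x.1, x.2.2))
        (k₂ := fun x => kap z (x.1, x.2.1))
        ((continuous_kap z).comp (continuous_fst.prodMk (continuous_snd.comp continuous_snd)))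
        ((continuous_kap z).comp (continuous_fst.prodMk (continuous_fst.comp continuous_snd)))
        measurable_tr
    · intro c
      obtain ⟨d, hd⟩ := hK (bjoin z (cjoin c)) (tr_bjoin_left _ _)
      have h1 := (tendsto_fst_residual (ℕ → Bool) (ℕ → Bool)).eventually hd
      have h2 := (tendsto_snd_residual (ℕ → Bool) (ℕ → Bool)).eventually hd
      exact (h1.and h2).mono fun x hx => hx.1.1.trans hx.2.2
  -- the space of the `(c, h, (g, g'))`
  have hS : ∀ᶠ x in residual ((ℕ → DX) × (ℕ → Bool) × ((ℕ → Bool) × (ℕ → Bool))),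
      TR (φ (kap z (x.1, x.2.2.1))) (φ (kap z (fun j => x.1 (revb x.2.1 j), x.2.2.2))) := by
    have t1 : Tendsto (fun x : (ℕ → DX) × (ℕ → Bool) × ((ℕ → Bool) × (ℕ → Bool)) =>
        (x.1, x.2.2.1, x.2.1)) (residual _) (residual ((ℕ → DX) × (ℕ → Bool) × (ℕ → Bool))) := by
      refine tendsto_residual_of_isOpenMap (by fun_prop) ?_
      have h1 : IsOpenMap (fun p : (ℕ → Bool) × ((ℕ → Bool) × (ℕ → Bool)) => (p.2.1, p.1)) := by
        have h2 : IsOpenMap (Prod.map (id : (ℕ → Bool) → (ℕ → Bool))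
            (Prod.fst : (ℕ → Bool) × (ℕ → Bool) → (ℕ → Bool))) := IsOpenMap.id.prodMap isOpenMap_fst
        exact (Homeomorph.prodComm (ℕ → Bool) (ℕ → Bool)).isOpenMap.comp h2
      exact IsOpenMap.id.prodMap h1
    have t2 : Tendsto (fun x : (ℕ → DX) × (ℕ → Bool) × ((ℕ → Bool) × (ℕ → Bool)) =>
        (x.1, x.2.1, x.2.2.2)) (residual _) (residual ((ℕ → DX) × (ℕ → Bool) × (ℕ → Bool))) := by
      refine tendsto_residual_of_isOpenMap (by fun_prop) ?_
      exact IsOpenMap.id.prodMap (IsOpenMap.id.prodMap isOpenMap_snd)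
    have t3 : Tendsto (fun x : (ℕ → DX) × (ℕ → Bool) × ((ℕ → Bool) × (ℕ → Bool)) => x.2.1)
        (residual _) (residual (ℕ → Bool)) :=
      (tendsto_fst_residual _ _).comp (tendsto_snd_residual _ _)
    have h1 := t1.eventually hE1
    have h2 := (mapT_tendsto (X := DX) (W := (ℕ → Bool) × (ℕ → Bool))).eventually
      (t2.eventually hE1)
    have h3 := t3.eventually inf_residual
    filter_upwards [h1, h2, h3] with x e1 e2 e3
    exact e1.trans ((hinv _ _ (eqv_revb z e3 x.1)).trans e2)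
  -- pairs of independent sequences
  let Q : Set (((ℕ → DX) × (ℕ → DX)) × ((ℕ → Bool) × (ℕ → Bool))) :=
    {x | TR (φ (kap z (x.1.1, x.2.1))) (φ (kap z (x.1.2, x.2.2)))}
  have hQ : Q ∈ residual _ := by
    have hBM : BaireMeasurableSet Q :=
      bm_pair hφ (k₁ := fun x : ((ℕ → DX) × (ℕ → DX)) × ((ℕ → Bool) × (ℕ → Bool)) =>
          kap z (x.1.2, x.2.2))
        (k₂ := fun x => kap z (x.1.1, x.2.1))
        ((continuous_kap z).comp (by fun_prop)) ((continuous_kap z).comp (by fun_prop))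
        measurable_tr
    obtain ⟨V, hV, hQV⟩ := hBM.compl.residualEq_isOpen
    have h1 : ∀ᶠ x in residual (((ℕ → DX) × (ℕ → DX)) × ((ℕ → Bool) × (ℕ → Bool))),
      (x ∈ Qᶜ ↔ x ∈ V) := eventuallyEq_set.1 hQV
    have h2 : V = ∅ := by
      by_contra hne
      obtain ⟨V', hV'o, hV'ne, hV'⟩ := mapS_open hV (nonempty_iff_ne_empty.2 hne)
      obtain ⟨x, hx, hx1, hx2⟩ := (dense_of_mem_residual
        ((mapS_tendsto.eventually h1).and hS)).inter_open_nonempty V' hV'o hV'ne
      exact hx1.2 (hV' x hx) hx2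
    refine mem_of_superset h1 fun x hx => ?_
    by_contra hx'
    have h3 := hx.1 hx'
    rw [h2] at h3
    exact h3
  have hQ' : ∀ᶠ x in residual (((ℕ → DX) × (ℕ → Bool)) × ((ℕ → DX) × (ℕ → Bool))),
      TR (φ (kap z x.1)) (φ (kap z x.2)) := by
    have h1 := tendsto_residual_of_isOpenMap
      (Homeomorph.prodProdProdComm (ℕ → DX) (ℕ → DX) (ℕ → Bool) (ℕ → Bool)).symm.continuous
      (Homeomorph.prodProdProdComm (ℕ → DX) (ℕ → DX) (ℕ → Bool) (ℕ → Bool)).symm.isOpenMap
    exact h1.eventually hQ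
  obtain ⟨W, d, hW, ⟨⟨c, g⟩, hcg⟩, hd⟩ := const_of_residual hφ (continuous_kap z) hQ'
  refine ⟨d, fun w => ?_⟩
  obtain ⟨V1, V2, hV1, hV2, hc, hg, hV12⟩ := isOpen_prod_iff.1 hW c g hcg
  obtain ⟨n, hn⟩ := exists_cyl hV1 hc
  obtain ⟨⟨c', g'⟩, ⟨hc', hg'⟩, h1⟩ := (dense_of_mem_residual hd).inter_open_nonempty
    (cyl (n + 1) (Function.update c n (show DX from w)) ×ˢ V2) ((isOpen_cyl _ _).prod hV2)
    ⟨(_, g), self_mem_cyl _ _, hg⟩
  refine ⟨kap z (c', g'), ?_, h1 (hV12 ⟨hn fun j hj => ?_, hg'⟩)⟩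
  · have h2 : c' n = w := by
      have h3 := hc' n (Nat.lt_succ_self n)
      simp only at h3
      rw [h3, Function.update_self]
    have h4 : TR w (cjoin c') := by
      have h5 := tr_cjoin (fun i => (show ℕ → Bool from c' i)) n
      rw [← h2]
      exact h5
    exact (h4.trans (tr_bjoin_right z _)).trans (tr_bjoin_left _ _)
  · have h3 := hc' j (by omega)
    simp only at h3
    show c' j = c j
    rw [h3, Function.update_of_ne (ne_of_lt hj)]

end Pool.Agent.MGen
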