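import Pool.Agent.Lib.MGen.Fo

/-!
# A countable family of Borel codes closed under subcodes, forcing and Turing functionals; the
operator `J`
-/

set_option autoImplicit false

namespace Pool.Agent.MGen

open Topology Filter Set TopologicalSpace Pool.Agent.GammaZero Pool.Agent.Mart Encodable

/-- the code `sb k B`: the set of `B` is the complement of the union of the sets of the `sb k B` -/
def sb (k : ℕ) : BC → BC
  | .bit n => .nor fun _ => .bit n
  | .nor f => f k

theorem sat_sb (B : BC) (a : ℕ → Bool) : a ∈ B.sat ↔ ∀ k, a ∉ (sb k B).sat := by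
  cases B with
  | bit n =>
    constructor
    · intro h k h'
      exact h' 0 h
    · intro h
      by_contra hcon
      exact h 0 fun _ => hcon
  | nor f => exact Iff.rfl

/-- the code of `{b | s forces b ⊕ g ∈ B}` -/
noncomputable def fo (s : List Bool) (B : BC) : BC :=
  Classical.choose (exists_code (measurable_fo B s))

theorem sat_fo (s : List Bool) (B : BC) :
    (fo s B).sat = {b : ℕ → Bool | Fo {g | bjoin b g ∈ B.sat} s} :=
  Classical.choose_spec (exists_code (measurable_fo B s))

open Classical in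
/-- the Turing functional `e`, made total -/
noncomputable def tmF (e : ℕ) (a : ℕ → Bool) (k : ℕ) : Bool := decide (∃ t, U a e k t 1)

theorem tmF_eq {e : ℕ} {a y : ℕ → Bool} (h : Idx a e y) : tmF e a = y := by
  classical
  funext k
  obtain ⟨t, ht⟩ := h k
  unfold tmF
  cases hy : y k
  · rw [hy] at ht
    refine decide_eq_false ?_
    rintro ⟨t', ht'⟩
    have := ht.unique ht'
    simp at this
  · rw [hy] at ht
    exact decide_eq_true ⟨t, ht⟩

theorem measurable_tmF (e : ℕ) : Measurable (tmF e) := by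
  rw [measurable_pi_iff]
  intro k
  refine measurable_to_bool ?_
  classical
  have h1 : (fun a => tmF e a k) ⁻¹' {true} = ⋃ t, {a : ℕ → Bool | U a e k t 1} := by
    ext a
    simp only [mem_preimage, mem_singleton_iff, mem_iUnion]
    unfold tmF
    rw [decide_eq_true_iff]
    exact Iff.rfl
  rw [h1]
  exact MeasurableSet.iUnion fun t => measurable_U _ _ _ _

/-- the code of `{a | Φ_e(a) ∈ B}` -/
noncomputable def tm (e : ℕ) (B : BC) : BC :=
  Classical.choose (exists_code ((measurable_tmF e) B.measurable))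

theorem sat_tm (e : ℕ) (B : BC) : (tm e B).sat = {a : ℕ → Bool | tmF e a ∈ B.sat} :=
  Classical.choose_spec (exists_code ((measurable_tmF e) B.measurable))

/-- the operations -/
noncomputable def op (o : ℕ) (B : BC) : BC :=
  if o.unpair.1 = 0 then sb o.unpair.2 B
  else if o.unpair.1 = 1 then fo (dl o.unpair.2) B else tm o.unpair.2 B

theorem op_sb (k : ℕ) (B : BC) : op (Nat.pair 0 k) B = sb k B := by
  unfold op
  rw [if_pos (by simp)]
  simp

theorem op_fo (s : List Bool) (B : BC) : op (Nat.pair 1 (encode s)) B = fo s B := by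
  unfold op
  rw [if_neg (by simp), if_pos (by simp)]
  simp [dl_encode]

theorem op_tm (e : ℕ) (B : BC) : op (Nat.pair 2 e) B = tm e B := by
  unfold op
  rw [if_neg (by simp), if_neg (by simp)]
  simp

/-- the codes obtained from `base i` by a list of operations -/
noncomputable def cod (base : ℕ → BC) : List ℕ → ℕ → BC
  | [], i => base i
  | o :: l, i => op o (cod base l i)

/-- the family, indexed by the natural numbers -/
noncomputable def fam (base : ℕ → BC) (n : ℕ) : BC :=
  cod base (Denumerable.ofNat (List ℕ) n.unpair.1) n.unpair.2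

/-- index of the result of an operation -/
def ap (o n : ℕ) : ℕ := Nat.pair (encode (o :: Denumerable.ofNat (List ℕ) n.unpair.1)) n.unpair.2

theorem fam_ap (base : ℕ → BC) (o n : ℕ) : fam base (ap o n) = op o (fam base n) := by
  unfold fam ap
  simp only [Nat.unpair_pair, Denumerable.ofNat_encode]
  rfl

theorem ap_computable : Computable₂ ap := by
  have h1 : Computable fun p : ℕ × ℕ => p.1 :: Denumerable.ofNat (List ℕ) p.2.unpair.1 :=
    Computable.list_cons.comp Computable.fst ((Computable.ofNat (List ℕ)).comp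
      (Computable.fst.comp (Computable.unpair.comp Computable.snd)))
  exact Primrec₂.natPair.to_comp.comp (Computable.encode.comp h1)
    (Computable.snd.comp (Computable.unpair.comp Computable.snd))

/-- index of a basic code -/
def ib (i : ℕ) : ℕ := Nat.pair (encode ([] : List ℕ)) i

theorem fam_ib (base : ℕ → BC) (i : ℕ) : fam base (ib i) = base i := by
  unfold fam ib
  simp only [Nat.unpair_pair, Denumerable.ofNat_encode]
  rfl

theorem ib_computable : Computable ib :=
  Primrec₂.natPair.to_comp.comp (Computable.const _) Computable.id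

open Classical in
/-- the operator of the family -/
noncomputable def JJ (base : ℕ → BC) (a : ℕ → Bool) (n : ℕ) : Bool :=
  decide (a ∈ (fam base n).sat)

theorem JJ_iff (base : ℕ → BC) (a : ℕ → Bool) (n : ℕ) :
    JJ base a n = true ↔ a ∈ (fam base n).sat := by
  classical
  unfold JJ
  rw [decide_eq_true_iff]

theorem measurable_JJ (base : ℕ → BC) : Measurable (JJ base) := by
  rw [measurable_pi_iff]
  intro k
  refine measurable_to_bool ?_
  have h1 : (fun a => JJ base a k) ⁻¹' {true} = (fam base k).sat := by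
    ext a
    exact JJ_iff base a k
  rw [h1]
  exact BC.measurable _

/-- membership in the sets of the family is decidable in `J a` -/
theorem di_fam {base : ℕ → BC} {O : Set (ℕ →. ℕ)} {a : ℕ → Bool}
    (ha : Nat.RecursiveIn O (orc (JJ base a))) {α : Type} [Primcodable α] {n : α → ℕ}
    (hn : CI O n) : DI O (fun x => a ∈ (fam base (n x)).sat) :=
  (di_one ha hn).of_iff fun _ => (JJ_iff _ _ _).symm

theorem di_fo {base : ℕ → BC} {O : Set (ℕ →. ℕ)} {b : ℕ → Bool}
    (hb : Nat.RecursiveIn O (orc (JJ base b))) {α : Type} [Primcodable α] {n : α → ℕ}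
    {s : α → List Bool} (hn : CI O n) (hs : CI O (fun x => encode (s x))) :
    DI O (fun x => Fo {g | bjoin b g ∈ (fam base (n x)).sat} (s x)) := by
  have h1 : CI O (fun x => ap (Nat.pair 1 (encode (s x))) (n x)) :=
    CI.comp₂ ap_computable (CI.npair (CI.const 1) hs) hn
  refine (di_fam hb h1).of_iff fun x => ?_
  rw [fam_ap, op_fo, sat_fo]
  exact Iff.rfl

/-- forcing a subcode -/
theorem di_fo_sb {base : ℕ → BC} {O : Set (ℕ →. ℕ)} {b : ℕ → Bool}
    (hb : Nat.RecursiveIn O (orc (JJ base b))) {α : Type} [Primcodable α] {n k : α → ℕ}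
    {s : α → List Bool} (hn : CI O n) (hk : CI O k) (hs : CI O (fun x => encode (s x))) :
    DI O (fun x => Fo {g | bjoin b g ∈ (sb (k x) (fam base (n x))).sat} (s x)) := by
  have h1 : CI O (fun x => ap (Nat.pair 0 (k x)) (n x)) :=
    CI.comp₂ ap_computable (CI.npair (CI.const 0) hk) hn
  refine (di_fo hb h1 hs).of_iff fun x => ?_
  rw [fam_ap, op_sb]

/-- `J` is order preserving -/
theorem JJ_mono (base : ℕ → BC) {A B : ℕ → Bool} (h : TR A B) : TR (JJ base A) (JJ base B) := by
  obtain ⟨e, he⟩ := exists_idx h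
  rw [tr_iff_ci]
  have h1 : CI {orc (JJ base B)} (fun n : ℕ => ap (Nat.pair 2 e) n) :=
    CI.comp₂ ap_computable (CI.const _) (CI.of_computable Computable.id)
  refine (ci_orc_comp (B := JJ base B) (TR.refl _) h1).congr fun n => ?_
  congr 1
  rw [Bool.eq_iff_iff, JJ_iff, JJ_iff, fam_ap, op_tm, sat_tm]
  show A ∈ (fam base n).sat ↔ tmF e B ∈ (fam base n).sat
  rw [tmF_eq he]

/-- basic sets are decidable in `J a` -/
theorem tr_JJ (base : ℕ → BC) {a y : ℕ → Bool} {f : ℕ → ℕ} (hf : Computable f)
    (h : ∀ n, a ∈ (base (f n)).sat ↔ y n = true) : TR y (JJ base a) := by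
  rw [tr_iff_ci]
  have h1 : CI {orc (JJ base a)} (fun n : ℕ => ib (f n)) :=
    CI.of_computable (ib_computable.comp hf)
  refine (ci_orc_comp (B := JJ base a) (TR.refl _) h1).congr fun n => ?_
  congr 1
  rw [Bool.eq_iff_iff, JJ_iff, fam_ib]
  exact (h n).symm

/-! ### The truth lemma -/

/-- `G` is generic over `b` for the family -/
def Good (base : ℕ → BC) (b G : ℕ → Bool) : Prop :=
  ∀ n, ∃ m, Fo {g | bjoin b g ∈ (fam base n).sat} (pre G m) ∨
    ∃ k, Fo {g | bjoin b g ∈ (sb k (fam base n)).sat} (pre G m)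

theorem truth {base : ℕ → BC} {b G : ℕ → Bool} (hG : Good base b G) (B : BC)
    (hB : ∃ n, fam base n = B) :
    bjoin b G ∈ B.sat ↔ ∃ m, Fo {g | bjoin b g ∈ B.sat} (pre G m) := by
  induction B with
  | bit n =>
    have key : ∀ g : ℕ → Bool, Ext (pre G (n + 1)) g → bjoin b g n = bjoin b G n := by
      intro g hg
      rw [Ext_iff_pre] at hg
      unfold bjoin
      split_ifs
      · rfl
      · exact hg (n / 2) (by omega)
    constructor
    · intro h
      refine ⟨n + 1, Eventually.of_forall fun g hg => ?_⟩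
      show bjoin b g n = true
      rw [key g hg]
      exact h
    · rintro ⟨m, hm⟩
      have h1 : Fo {g | bjoin b g n = bjoin b G n} (pre G (n + 1)) :=
        Eventually.of_forall fun g hg => key g hg
      obtain ⟨g, hg1, hg2⟩ := hm.disj h1 (Ext_pre G m) (Ext_pre G (n + 1))
      have hg1' : bjoin b g n = true := hg1
      show bjoin b G n = true
      rw [← hg1']
      exact hg2.symm
  | nor f ih =>
    obtain ⟨n, hn⟩ := hB
    have ih' : ∀ k, bjoin b G ∈ (f k).sat ↔ ∃ m, Fo {g | bjoin b g ∈ (f k).sat} (pre G m) := by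
      intro k
      refine ih k ⟨ap (Nat.pair 0 k) n, ?_⟩
      rw [fam_ap, op_sb, hn]
      rfl
    constructor
    · intro h
      obtain ⟨m, hm⟩ := hG n
      rw [hn] at hm
      rcases hm with hm | ⟨k, hm⟩
      · exact ⟨m, hm⟩
      · exact absurd ((ih' k).2 ⟨m, hm⟩) (h k)
    · rintro ⟨m, hm⟩ k hk
      obtain ⟨m', hm'⟩ := (ih' k).1 hk
      obtain ⟨g, hg1, hg2⟩ := hm.disj hm' (Ext_pre G m) (Ext_pre G m')
      exact hg1 k hg2

/-- `J (b ⊕ G)` is computable from `J b ⊕ G` if `G` is generic -/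
theorem JJ_bjoin {base : ℕ → BC} {b G : ℕ → Bool} (hG : Good base b G) :
    TR (JJ base (bjoin b G)) (bjoin (JJ base b) G) := by
  have hJ : Nat.RecursiveIn {orc (bjoin (JJ base b) G)} (orc (JJ base b)) := tr_bjoin_left _ _
  have hpre : CI {orc (bjoin (JJ base b) G)} (fun q : ℕ × ℕ => encode (pre G q.2.unpair.1)) :=
    CI.comp (ci_tr (ci_pre G) (tr_bjoin_right _ _)) (CI.left (CI.of_computable Computable.snd))
  let P : ℕ × ℕ → Prop := fun q =>
    (q.2.unpair.2 = 0 ∧ Fo {g | bjoin b g ∈ (fam base q.1).sat} (pre G q.2.unpair.1)) ∨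
    (¬ q.2.unpair.2 = 0 ∧
      Fo {g | bjoin b g ∈ (sb (q.2.unpair.2 - 1) (fam base q.1)).sat} (pre G q.2.unpair.1))
  have hP : DI {orc (bjoin (JJ base b) G)} P := by
    have e1 : CI {orc (bjoin (JJ base b) G)} (fun q : ℕ × ℕ => q.2.unpair.2) :=
      CI.right (CI.of_computable Computable.snd)
    have e2 : DI {orc (bjoin (JJ base b) G)} (fun q : ℕ × ℕ => q.2.unpair.2 = 0) :=
      DI.eq e1 (CI.const 0)
    exact (e2.and (di_fo hJ (CI.of_computable Computable.fst) hpre)).or
      (e2.not.and (di_fo_sb hJ (CI.of_computable Computable.fst) (e1.tsub (CI.const 1)) hpre))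
  have hex : ∀ n, ∃ w, P (n, w) := by
    intro n
    obtain ⟨m, hm⟩ := hG n
    rcases hm with hm | ⟨k, hm⟩
    · refine ⟨Nat.pair m 0, Or.inl ?_⟩
      simp only [Nat.unpair_pair]
      exact ⟨trivial, hm⟩
    · refine ⟨Nat.pair m (k + 1), Or.inr ?_⟩
      simp only [Nat.unpair_pair, Nat.add_sub_cancel]
      exact ⟨Nat.succ_ne_zero k, hm⟩
  obtain ⟨c, hc, hcP⟩ := choice hP hex
  rw [tr_iff_ci]
  refine (CI.ite (DI.eq (CI.right hc) (CI.const 0)) (CI.const 1) (CI.const 0)).congr fun n => ?_
  rcases hcP n with ⟨h1, h2⟩ | ⟨h1, h2⟩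
  · simp only at h1 h2
    rw [if_pos h1]
    have h3 : JJ base (bjoin b G) n = true :=
      (JJ_iff _ _ _).2 ((truth hG _ ⟨n, rfl⟩).2 ⟨_, h2⟩)
    rw [h3]
    rfl
  · simp only at h1 h2
    rw [if_neg h1]
    have h3 : bjoin b G ∈ (sb ((c n).unpair.2 - 1) (fam base n)).sat :=
      (truth hG _ ⟨ap (Nat.pair 0 ((c n).unpair.2 - 1)) n, by rw [fam_ap, op_sb]⟩).2 ⟨_, h2⟩
    have h4 : JJ base (bjoin b G) n = false := by
      rw [← Bool.not_eq_true, JJ_iff]
      exact fun h5 => (sat_sb _ _).1 h5 _ h3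
    rw [h4]
    rfl

end Pool.Agent.MGen
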