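import Pool.Agent.Lib.MGen.Psi2

/-!
# Five reals with a given value of the operator whose `φ`-values compute it
-/

set_option autoImplicit false

namespace Pool.Agent.MGen

open Pool.Agent.GammaZero Pool.Agent.Mart Encodable

private theorem f2_ext_comp : Computable (fun q : List Bool × ℕ => (ext q.1 q.2).toNat) := by
  have h1 : Computable (fun q : List Bool × ℕ => (q.1[q.2]?).getD false) :=
    Computable.option_getD (Computable.list_getElem?.comp Computable.fst Computable.snd)
      (Computable.const false)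
  have h2 : Computable Bool.toNat := (Primrec.dom_bool Bool.toNat).to_comp
  exact h2.comp h1

private theorem f2_ext_tr (σ : List Bool) (c : ℕ → Bool) : TR (ext σ) c := by
  rw [tr_iff_ci]
  exact CI.of_computable (f2_ext_comp.comp ((Computable.const σ).pair Computable.id))

private theorem f2_fam_bjoin (c : ℕ → Bool) :
    CI {orc c} (fun q : List Bool × ℕ => (bjoin c (ext q.1) q.2).toNat) := by
  have hsnd : CI {orc c} (fun q : List Bool × ℕ => q.2) := CI.of_computable Computable.snd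
  have hdiv : Computable (fun q : List Bool × ℕ => q.2 / 2) :=
    (Primrec.nat_div.comp Primrec.snd (Primrec.const 2)).to_comp
  refine (CI.ite (DI.eq (CI.mod hsnd (CI.const 2)) (CI.const 0))
    (ci_orc_comp (TR.refl c) (CI.div hsnd (CI.const 2)))
    (CI.of_computable (f2_ext_comp.comp (Computable.fst.pair hdiv)))).congr fun q => ?_
  unfold bjoin
  split_ifs <;> rfl

private theorem f2_bjoin_inj {c α β : ℕ → Bool} (h : bjoin c α = bjoin c β) : α = β := by
  rw [← rgt_bjoin c α, ← rgt_bjoin c β, h]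

variable {φ h : (ℕ → Bool) → (ℕ → Bool)} {base : ℕ → BC}

/-- the branches -/
theorem branch2 {b c e : ℕ → Bool} {Y : List Bool → ℕ → Bool → Prop} {w : ℕ → Bool → List Bool}
    (hb : IsBase φ h base) (hY : Name Y) (hB : Blk2 Y (DD base b) w)
    (hw : CI {orc (JJ base b)} (fun q : ℕ × Bool => encode (w q.1 q.2)))
    (hc : TR (JJ base b) c) (he : TR e c) :
    TR (JJ base (bjoin b (brn w e))) c ∧ TR e (JJ base (bjoin b (brn w e))) := by
  constructor
  · exact (JJ_bjoin (good_brn hB e)).trans (bjoin_tr hc (brn_tr (ci_tr hw hc) he))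
  · have h1 : TR (JJ base b) (JJ base (bjoin b (brn w e))) := JJ_mono base (tr_bjoin_left _ _)
    exact tr_brn hB.len hB.pos (blk2_ne hY hB) (ci_tr hw h1)
      ((tr_bjoin_right b (brn w e)).trans (tr_JJ_self hb _))

/-- the least indices are computable in `J (b ⊕ G)` -/
theorem index2 (hb : IsBase φ h base) {b G : ℕ → Bool}
    (hp : ∀ ρ : List Bool, TR (φ (bjoin b (patch ρ G))) (φ (bjoin b G))) :
    ∃ I : ℕ → ℕ, CI {orc (JJ base (bjoin b G))} I ∧ ∀ ρ : List Bool,
      Idx (φ (bjoin b G)) (I (encode ρ)) (φ (bjoin b (patch ρ G))) ∧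
      ∀ e < I (encode ρ), ¬ Idx (φ (bjoin b G)) e (φ (bjoin b (patch ρ G))) := by
  classical
  have hI2 : DI {orc (JJ base (bjoin b G))} (fun q : ℕ × ℕ =>
      Idx (φ (bjoin b G)) q.2 (φ (bjoin b (patch (dl q.1) G)))) := by
    have e1 : Computable (fun q : ℕ × ℕ => ib (Nat.pair 3 (Nat.pair q.1 q.2))) :=
      ib_computable.comp (Primrec₂.natPair.to_comp.comp (Computable.const _)
        (Primrec₂.natPair.to_comp.comp Computable.fst Computable.snd))
    refine (di_fam (base := base) (TR.refl (JJ base (bjoin b G)))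
      (CI.of_computable e1)).of_iff fun q => ?_
    rw [fam_ib, hb.s3]
    show _ ↔ Idx (φ (bjoin b G)) q.2 (φ (pat (dl q.1) (bjoin b G)))
    rw [pat_bjoin]
  have hI3 : DI {orc (JJ base (bjoin b G))} (fun q : (ℕ × ℕ) × ℕ =>
      ¬ Idx (φ (bjoin b G)) q.2 (φ (bjoin b (patch (dl q.1.1) G)))) :=
    DI.not (hI2.comp_computable (g := fun q : (ℕ × ℕ) × ℕ => (q.1.1, q.2))
      ((Computable.fst.comp Computable.fst).pair Computable.snd))
  have hQ := hI2.and (DI.ball hI3 (CI.of_computable Computable.snd))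
  obtain ⟨c, hc, hcQ⟩ := choice hQ (fun a => by
    have hex := exists_idx (hp (dl a))
    exact ⟨Nat.find hex, Nat.find_spec hex, fun k hk => Nat.find_min hex hk⟩)
  refine ⟨c, hc, fun ρ => ?_⟩
  have h1 := hcQ (encode ρ)
  simp only [dl_encode] at h1
  exact h1

theorem five_reals2 (hb : IsBase φ h base) (hφ : Measurable φ)
    (hinv : ∀ A B, Eqv A B → TR (φ A) (φ B)) {b : ℕ → Bool} (hNC : NC (YN φ b)) :
    ∃ W : ℕ → Bool, ∀ c, TR W c → ∃ a : ℕ → ℕ → Bool,
      (∀ j, TR b (a j) ∧ Eqv (JJ base (a j)) c) ∧ TR c (join5 fun j => φ (a j)) := by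
  have hY := name_YN hφ b
  obtain ⟨w, hB, hw⟩ := blocks_exist2 hY (di_YN hb b) hNC (dfam_DD base b) (di_DD base b)
  have ht : ∀ (e : ℕ → Bool) (i : ℕ), ∃ m,
      YN φ b (pre (brn w e) m) i ((fun G => φ (bjoin b G)) (brn w e) i) :=
    fun e i => YN_truth hb (good_brn hB e) i
  obtain ⟨ψ, hψ⟩ : ∃ ψ : (ℕ → Bool) → (ℕ → Bool), ψ = fun e => φ (bjoin b (brn w e)) :=
    ⟨_, rfl⟩
  have hψc : Continuous ψ := by
    rw [hψ]
    exact psi2_cont (f := fun G => φ (bjoin b G)) hY hB ht
  have hψi : Function.Injective ψ := by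
    rw [hψ]
    exact psi2_inj (f := fun G => φ (bjoin b G)) hY hB ht
  choose L hL using unif_cont hψc
  obtain ⟨p1, hp1⟩ := exists_table (fun m =>
    Nat.pair (L m) (ψ (ext (dl m.unpair.2)) m.unpair.1).toNat)
  refine ⟨bjoin (JJ base b) p1, fun c hc => ?_⟩
  have hJc : TR (JJ base b) c := (tr_bjoin_left _ _).trans hc
  have hp1c := ci_tr hp1 ((tr_bjoin_right (JJ base b) p1).trans hc)
  have hwc := ci_tr hw hJc
  have hLc : CI {orc c} L := (CI.left hp1c).congr fun m => by simp only [Nat.unpair_pair]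
  -- the base point
  have he0 : TR (bjoin c (ext [])) c := bjoin_tr (TR.refl c) (f2_ext_tr [] c)
  have hbr := fun (e : ℕ → Bool) (he : TR e c) => branch2 hb hY hB hw hJc he
  have hG0 := (hbr _ he0).1
  obtain ⟨G₀, hG₀⟩ : ∃ G₀, G₀ = brn w (bjoin c (ext [])) := ⟨_, rfl⟩
  rw [← hG₀] at hG0
  have hpatch : ∀ ρ : List Bool, TR (φ (bjoin b (patch ρ G₀))) (φ (bjoin b G₀)) := by
    intro ρ
    apply hinv
    exact ⟨bjoin_tr (tr_bjoin_left b G₀) ((patch_tr ρ G₀).trans (tr_bjoin_right b G₀)),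
      bjoin_tr (tr_bjoin_left b (patch ρ G₀))
        ((tr_patch ρ G₀).trans (tr_bjoin_right b (patch ρ G₀)))⟩
  obtain ⟨I₀, hI₀, hI₀'⟩ := index2 hb hpatch
  have hx : TR (φ (bjoin b G₀)) c := (tr_JJ_phi hb _).trans hG0
  have hI₀c : CI {orc c} I₀ := ci_tr hI₀ hG0
  -- the map ψ_c
  have hψσ : ∀ σ : List Bool, ψ (bjoin c (ext σ)) =
      φ (bjoin b (patch (stm w (bjoin c (ext σ)) (2 * σ.length)) G₀)) := by
    intro σ
    rw [hψ, hG₀]
    simp only []
    rw [← brn_patch hB.len hB.pos c σ]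
  have hinj : Function.Injective (fun α : ℕ → Bool => ψ (bjoin c α)) :=
    fun α β h => f2_bjoin_inj (hψi h)
  have hL' : ∀ (n : ℕ) (α β : ℕ → Bool), (∀ k < L n, α k = β k) →
      (fun α : ℕ → Bool => ψ (bjoin c α)) α n = (fun α : ℕ → Bool => ψ (bjoin c α)) β n := by
    intro n α β h
    refine hL n _ _ fun k hk => ?_
    unfold bjoin
    split_ifs
    · rfl
    · exact h (k / 2) (lt_of_le_of_lt (Nat.div_le_self k 2) hk)
  have hV : CI {orc c} (fun q : ℕ × ℕ =>
      ((fun α : ℕ → Bool => ψ (bjoin c α)) (ext (dl q.1)) q.2).toNat) := by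
    have h1 : CI {orc c} (fun q : ℕ × ℕ => encode (pre (bjoin c (ext (dl q.1))) q.2)) :=
      (fam_pre (F := fun σ => bjoin c (ext σ)) (f2_fam_bjoin c)).comp_computable
        (g := fun q : ℕ × ℕ => ((dl q.1, q.2) : List Bool × ℕ))
        ((dl_computable.comp Computable.fst).pair Computable.snd)
    have h2 : CI {orc c} (fun q : ℕ × ℕ => L q.2) := hLc.comp_computable Computable.snd
    have h3 : CI {orc c} (fun q : ℕ × ℕ =>
        encode (pre (bjoin c (ext (dl q.1))) (L q.2))) :=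
      CI.app2 h1 (CI.of_computable Computable.fst) h2
    have h4 := CI.comp hp1c (CI.npair (CI.of_computable (O := {orc c})
      (Computable.snd (α := ℕ) (β := ℕ))) h3)
    refine (CI.right h4).congr fun q => ?_
    simp only [Nat.unpair_pair, dl_encode]
    congr 1
    apply hL
    intro k hk
    show bjoin c (ext (dl q.1)) k = ((pre (bjoin c (ext (dl q.1))) (L q.2))[k]?).getD false
    rw [pre_getElem? _ _ k hk]
    rfl
  have hIc : CI {orc c} (fun a : ℕ =>
      I₀ (encode (stm w (bjoin c (ext (dl a))) (2 * (dl a).length)))) :=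
    CI.comp hI₀c (ci_stm hwc)
  obtain ⟨α, hα, hz⟩ := eff_coding (ψ := fun α : ℕ → Bool => ψ (bjoin c α)) hinj
    (x := φ (bjoin b G₀)) (c := c) (L := L)
    (I := fun a : ℕ => I₀ (encode (stm w (bjoin c (ext (dl a))) (2 * (dl a).length))))
    hL' (fun σ => by
      simp only [dl_encode, hψσ σ]
      exact hI₀' _) hV hLc hIc hx (TR.refl c)
  refine ⟨fun j => Nat.casesOn j (bjoin b G₀) (fun i => bjoin b (brn w (bjoin c (α i)))),
    ?_, ?_⟩
  · intro j
    rcases j with _ | i
    · have h5 := (hbr _ he0).2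
      rw [← hG₀] at h5
      exact ⟨tr_bjoin_left _ _, hG0, (tr_bjoin_left c (ext [])).trans h5⟩
    · have h6 : TR (bjoin c (α i)) c := bjoin_tr (TR.refl c) (hα i)
      exact ⟨tr_bjoin_left _ _, (hbr _ h6).1, (tr_bjoin_left c (α i)).trans (hbr _ h6).2⟩
  · have h7 : (join5 fun j => φ ((fun j => Nat.casesOn j (bjoin b G₀)
        (fun i => bjoin b (brn w (bjoin c (α i)))) : ℕ → ℕ → Bool) j)) =
        WW (φ (bjoin b G₀)) (fun j => ψ (bjoin c (α j))) := by
      unfold WW
      congr 1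
      funext j
      rcases j with _ | i
      · rfl
      · rw [hψ]
        rfl
    rw [h7]
    exact hz

end Pool.Agent.MGen
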