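import Pool.Agent.Lib.MGen.Const

/-!
# Forcing with finite strings, and codes of Borel sets

`Fo E s`: comeager many reals extending `s` are in `E`.
-/

set_option autoImplicit false

namespace Pool.Agent.MGen

open Topology Filter Set TopologicalSpace Pool.Agent.GammaZero Pool.Agent.Mart Encodable

/-- `s` forces `E` -/
def Fo (E : Set (ℕ → Bool)) (s : List Bool) : Prop :=
  ∀ᶠ g in residual (ℕ → Bool), Ext s g → g ∈ E

theorem isOpen_ext (s : List Bool) : IsOpen {g : ℕ → Bool | Ext s g} := by
  have h1 : {g : ℕ → Bool | Ext s g} = cyl s.length (ext s) := by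
    ext g
    constructor
    · intro hg j hj
      have h2 := (Ext_iff s g).1 hg j hj
      have h3 := (Ext_iff s (ext s)).1 (Ext_ext s) j hj
      rw [h2] at h3
      exact Option.some.inj h3
    · intro hg
      refine (Ext_iff s g).2 fun j hj => ?_
      rw [hg j hj]
      exact (Ext_iff s (ext s)).1 (Ext_ext s) j hj
  rw [h1]
  exact isOpen_cyl _ _

theorem exists_ext_subset {V : Set (ℕ → Bool)} (hV : IsOpen V) {s : List Bool} {g : ℕ → Bool}
    (hg : g ∈ V) (hs : Ext s g) : ∃ t, s <+: t ∧ Ext t g ∧ ∀ x, Ext t x → x ∈ V := by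
  obtain ⟨n, hn⟩ := exists_cyl hV hg
  refine ⟨pre g (max s.length n), prefix_pre hs (le_max_left _ _), Ext_pre _ _, fun x hx => ?_⟩
  rw [Ext_iff_pre] at hx
  exact hn fun j hj => hx j (lt_of_lt_of_le hj (le_max_right _ _))

theorem Fo.mono {E : Set (ℕ → Bool)} {s t : List Bool} (h : s <+: t) (hs : Fo E s) : Fo E t :=
  Eventually.mono hs fun _ hg hgt => hg (Ext_mono h hgt)

theorem Fo.sub {E F : Set (ℕ → Bool)} (h : E ⊆ F) {s : List Bool} (hs : Fo E s) : Fo F s :=
  Eventually.mono hs fun _ hg hgt => h (hg hgt)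

theorem exists_of_fo {p : (ℕ → Bool) → Prop} (hp : ∀ᶠ g in residual (ℕ → Bool), p g)
    (s : List Bool) : ∃ g, Ext s g ∧ p g := by
  obtain ⟨g, hg, hg'⟩ := (dense_of_mem_residual hp).inter_open_nonempty _ (isOpen_ext s)
    ⟨ext s, Ext_ext s⟩
  exact ⟨g, hg, hg'⟩

theorem Fo.disj {E F : Set (ℕ → Bool)} {s t : List Bool} {G : ℕ → Bool} (hE : Fo E s)
    (hF : Fo F t) (hs : Ext s G) (ht : Ext t G) : ∃ g, g ∈ E ∧ g ∈ F := by
  have h1 : Fo E (pre G (max s.length t.length)) := hE.mono (prefix_pre hs (le_max_left _ _))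
  have h2 : Fo F (pre G (max s.length t.length)) := hF.mono (prefix_pre ht (le_max_right _ _))
  obtain ⟨g, hg, hg1, hg2⟩ := exists_of_fo (h1.and h2) (pre G (max s.length t.length))
  exact ⟨g, hg1 hg, hg2 hg⟩

theorem Fo.false {E : Set (ℕ → Bool)} {s t : List Bool} (hE : Fo E s) (hst : s <+: t)
    (hF : Fo Eᶜ t) : False := by
  obtain ⟨g, h1, h2⟩ := hE.disj hF (G := ext t) (Ext_mono hst (Ext_ext t)) (Ext_ext t)
  exact h2 h1

theorem Fo.dense {E : Set (ℕ → Bool)} (hE : BaireMeasurableSet E) (s : List Bool) :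
    ∃ t, s <+: t ∧ (Fo E t ∨ Fo Eᶜ t) := by
  obtain ⟨V, hV, hEV⟩ := hE.residualEq_isOpen
  have h1 : ∀ᶠ g in residual (ℕ → Bool), (g ∈ E ↔ g ∈ V) := eventuallyEq_set.1 hEV
  by_cases h : ∃ g ∈ V, Ext s g
  · obtain ⟨g, hg, hs⟩ := h
    obtain ⟨t, hst, -, ht⟩ := exists_ext_subset hV hg hs
    exact ⟨t, hst, Or.inl (h1.mono fun x hx hxt => hx.2 (ht x hxt))⟩
  · push Not at h
    exact ⟨s, List.prefix_rfl, Or.inr (h1.mono fun x hx hxs hxE => h x (hx.1 hxE) hxs)⟩

theorem fo_iff_not {E : Set (ℕ → Bool)} (hE : BaireMeasurableSet E) (s : List Bool) :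
    Fo E s ↔ ∀ t, s <+: t → ¬ Fo Eᶜ t := by
  constructor
  · intro h t hst h'
    exact h.false hst h'
  · intro h
    obtain ⟨V, hV, hEV⟩ := hE.residualEq_isOpen
    have h1 : ∀ᶠ g in residual (ℕ → Bool), (g ∈ E ↔ g ∈ V) := eventuallyEq_set.1 hEV
    have h2 : ∀ᶠ g in residual (ℕ → Bool), g ∈ V ∪ {g | Ext s g}ᶜ := by
      have h3 : ∀ᶠ g in residual (ℕ → Bool),
          g ∈ interior (V ∪ {g : ℕ → Bool | Ext s g}ᶜ) := by
        refine residual_of_dense_open isOpen_interior ?_
        rw [dense_iff_inter_open]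
        rintro O hO ⟨g, hg⟩
        by_cases hc : (O ∩ {g | Ext s g}).Nonempty
        · obtain ⟨g', hg', hs⟩ := hc
          obtain ⟨t, hst, -, ht⟩ := exists_ext_subset hO hg' hs
          obtain ⟨t', htt', h4⟩ := Fo.dense hE t
          rcases h4 with h4 | h4
          · obtain ⟨x, hx, hx1, hx2⟩ := exists_of_fo (h4.and h1) t'
            refine ⟨x, ht x (Ext_mono htt' hx), mem_interior.2 ?_⟩
            exact ⟨V, subset_union_left, hV, hx2.1 (hx1 hx)⟩
          · exact absurd h4 (h t' (hst.trans htt'))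
        · refine ⟨g, hg, mem_interior.2 ?_⟩
          refine ⟨O, fun x hx => Or.inr fun hxs => hc ⟨x, hx, hxs⟩, hO, hg⟩
      exact h3.mono fun g hg => interior_subset hg
    filter_upwards [h1, h2] with g h3 h4 hs
    rcases h4 with h4 | h4
    · exact h3.2 h4
    · exact absurd hs h4

/-- forcing the complement of a countable union -/
theorem fo_nor {E : ℕ → Set (ℕ → Bool)} (hE : ∀ k, BaireMeasurableSet (E k)) (s : List Bool) :
    Fo {g | ∀ k, g ∉ E k} s ↔ ∀ k t, s <+: t → ¬ Fo (E k) t := by
  have h1 : Fo {g | ∀ k, g ∉ E k} s ↔ ∀ k, Fo (E k)ᶜ s := by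
    constructor
    · intro h k
      exact Fo.sub (E := {g | ∀ k, g ∉ E k}) (fun g hg => hg k) h
    · intro h
      exact (eventually_countable_forall.2 h).mono fun g hg hs k => hg k hs
  rw [h1]
  refine forall_congr' fun k => ?_
  rw [fo_iff_not (hE k).compl, compl_compl]

theorem fo_some {E : ℕ → Set (ℕ → Bool)} (hE : ∀ k, BaireMeasurableSet (E k)) {s : List Bool}
    (h : Fo {g | ∀ k, g ∉ E k}ᶜ s) : ∃ k t, s <+: t ∧ Fo (E k) t := by
  by_contra hcon
  push Not at hcon
  exact ((fo_nor hE s).2 hcon).false List.prefix_rfl h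

/-! ### Codes of Borel sets -/

/-- Borel codes: bits, and the complement of a countable union -/
inductive BC : Type
  | bit (n : ℕ) : BC
  | nor (f : ℕ → BC) : BC

/-- the set with a given code -/
def BC.sat : BC → Set (ℕ → Bool)
  | .bit n => {a | a n = true}
  | .nor f => {a | ∀ k, a ∉ (f k).sat}

theorem BC.measurable (B : BC) : MeasurableSet B.sat := by
  induction B with
  | bit n => exact measurable_bit n true
  | nor f ih =>
    have h1 : (BC.nor f).sat = ⋂ k, ((f k).sat)ᶜ := by
      ext a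
      simp only [mem_iInter]
      rfl
    rw [h1]
    exact MeasurableSet.iInter fun k => (ih k).compl

/-- the σ-algebra of the sets with a code -/
@[instance_reducible]
def codeAlg : MeasurableSpace (ℕ → Bool) where
  MeasurableSet' S := ∃ B : BC, B.sat = S
  measurableSet_empty := by
    refine ⟨.nor fun k => if k = 0 then .bit 0 else .nor fun _ => .bit 0, ?_⟩
    ext a
    constructor
    · intro h
      have h0 : a ∉ (BC.bit 0).sat := h 0
      have h1 : a ∉ (BC.nor fun _ => BC.bit 0).sat := h 1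
      exact h1 fun _ => h0
    · intro h
      exact absurd h (notMem_empty a)
  measurableSet_compl S := by
    rintro ⟨B, rfl⟩
    refine ⟨.nor fun _ => B, ?_⟩
    ext a
    exact ⟨fun h => h 0, fun h _ => h⟩
  measurableSet_iUnion f hf := by
    choose B hB using hf
    refine ⟨.nor fun _ => .nor B, ?_⟩
    ext a
    constructor
    · intro h
      have h1 := h 0
      by_contra hcon
      refine h1 fun k hk => hcon ?_
      rw [hB] at hk
      exact mem_iUnion.2 ⟨k, hk⟩
    · intro h _ h'
      obtain ⟨k, hk⟩ := mem_iUnion.1 h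
      exact h' k (by rw [hB]; exact hk)

theorem exists_code {S : Set (ℕ → Bool)} (hS : MeasurableSet S) : ∃ B : BC, B.sat = S := by
  have h1 : @Measurable _ _ codeAlg MeasurableSpace.pi (id : (ℕ → Bool) → (ℕ → Bool)) := by
    rw [@measurable_pi_iff _ _ _ codeAlg]
    intro i
    refine @measurable_to_bool _ codeAlg _ ?_
    refine ⟨.bit i, ?_⟩
    ext a
    exact Iff.rfl
  exact h1 hS

/-- the set of the `b` for which `s` forces `b ⊕ g ∈ B` -/
theorem measurable_fo (B : BC) (s : List Bool) :
    MeasurableSet {b : ℕ → Bool | Fo {g | bjoin b g ∈ B.sat} s} := by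
  have hcont : ∀ b : ℕ → Bool, Continuous fun g : ℕ → Bool => bjoin b g := by
    intro b
    refine continuous_pi fun n => ?_
    by_cases h : n % 2 = 0
    · have e1 : (fun g : ℕ → Bool => bjoin b g n) = fun _ => b (n / 2) := by
        funext x
        unfold bjoin
        rw [if_pos h]
      rw [e1]
      exact continuous_const
    · have e1 : (fun g : ℕ → Bool => bjoin b g n) = fun g => g (n / 2) := by
        funext x
        unfold bjoin
        rw [if_neg h]
      rw [e1]
      exact continuous_apply _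
  induction B generalizing s with
  | bit n =>
    by_cases h : n % 2 = 0
    · have h1 : {b : ℕ → Bool | Fo {g | bjoin b g ∈ (BC.bit n).sat} s} =
          {b : ℕ → Bool | b (n / 2) = true} := by
        ext b
        have h2 : ∀ g, bjoin b g ∈ (BC.bit n).sat ↔ b (n / 2) = true := by
          intro g
          show bjoin b g n = true ↔ _
          unfold bjoin
          rw [if_pos h]
        constructor
        · intro hb
          obtain ⟨g, hg, hg'⟩ := exists_of_fo hb s
          exact (h2 g).1 (hg' hg)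
        · intro hb
          show Fo _ s
          exact Eventually.of_forall fun g _ => (h2 g).2 hb
      rw [h1]
      exact measurable_bit _ _
    · have h1 : {b : ℕ → Bool | Fo {g | bjoin b g ∈ (BC.bit n).sat} s} =
          {_b : ℕ → Bool | Fo {g : ℕ → Bool | g (n / 2) = true} s} := by
        ext b
        have h2 : {g | bjoin b g ∈ (BC.bit n).sat} = {g : ℕ → Bool | g (n / 2) = true} := by
          ext g
          show bjoin b g n = true ↔ _
          unfold bjoin
          rw [if_neg h]
          exact Iff.rfl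
        show Fo _ s ↔ Fo _ s
        rw [h2]
      rw [h1]
      exact MeasurableSet.const _
  | nor f ih =>
    have h1 : {b : ℕ → Bool | Fo {g | bjoin b g ∈ (BC.nor f).sat} s} =
        ⋂ k, ⋂ t : {t : List Bool // s <+: t},
          {b : ℕ → Bool | Fo {g | bjoin b g ∈ (f k).sat} t}ᶜ := by
      ext b
      have h2 : Fo {g | bjoin b g ∈ (BC.nor f).sat} s ↔
          ∀ k t, s <+: t → ¬ Fo {g | bjoin b g ∈ (f k).sat} t :=
        fo_nor (E := fun k => {g | bjoin b g ∈ (f k).sat})
          (fun k => ((hcont b).measurable (f k).measurable).baireMeasurableSet) s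
      simp only [mem_iInter, Subtype.forall]
      exact h2
    rw [h1]
    exact MeasurableSet.iInter fun k => MeasurableSet.iInter fun t => (ih k t).compl

end Pool.Agent.MGen
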