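import Pool.Agent.Lib.MGen.Cat
import Pool.Agent.Lib.MJump.Defs

/-!
# The reversal of the blocks of `h` is computable from `h`
-/

set_option autoImplicit false

namespace Pool.Agent.MGen

open Pool.Agent.GammaZero Pool.Agent.Mart Encodable

theorem di_one {O : Set (ℕ →. ℕ)} {h : ℕ → Bool} (hh : Nat.RecursiveIn O (orc h)) {α : Type}
    [Primcodable α] {f : α → ℕ} (hf : CI O f) : DI O (fun x => h (f x) = true) := by
  refine (DI.eq (ci_orc_comp hh hf) (CI.const 1)).of_iff fun x => ?_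
  cases h (f x) <;> simp

theorem di_blk {O : Set (ℕ →. ℕ)} {h : ℕ → Bool} (hh : Nat.RecursiveIn O (orc h)) {α : Type}
    [Primcodable α] {a k : α → ℕ} (ha : CI O a) (hk : CI O k) :
    DI O (fun x => Blk h (a x) (k x)) := by
  have h1 : DI O (fun x => a x = 0 ∨ h (a x - 1) = true) :=
    (DI.eq ha (CI.const 0)).or (di_one hh (ha.tsub (CI.const 1)))
  have h2 : DI O (fun x => ∀ j < k x, a x ≤ j → ¬ h j = true) := by
    have h3 : DI O (fun q : α × ℕ => a q.1 ≤ q.2 → ¬ h q.2 = true) :=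
      (DI.le (ha.comp_computable Computable.fst) (CI.of_computable Computable.snd)).imp
        (di_one hh (CI.of_computable Computable.snd)).not
    exact DI.ball h3 hk
  refine (h1.and (h2.and ((di_one hh hk).and (DI.le ha hk)))).of_iff fun x => ?_
  unfold Blk
  simp only [Bool.not_eq_true]

theorem ci_revb {O : Set (ℕ →. ℕ)} {h : ℕ → Bool} (hh : Nat.RecursiveIn O (orc h))
    (hinf : Inf h) : CI O (revb h) := by
  have h1 : DI O (fun q : ℕ × ℕ => Blk h q.2.unpair.1 q.2.unpair.2 ∧ q.2.unpair.1 ≤ q.1 ∧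
      q.1 ≤ q.2.unpair.2) := by
    have e1 : CI O (fun q : ℕ × ℕ => q.2.unpair.1) := CI.left (CI.of_computable Computable.snd)
    have e2 : CI O (fun q : ℕ × ℕ => q.2.unpair.2) := CI.right (CI.of_computable Computable.snd)
    have e3 : CI O (fun q : ℕ × ℕ => q.1) := CI.of_computable Computable.fst
    exact (di_blk hh e1 e2).and ((DI.le e1 e3).and (DI.le e3 e2))
  obtain ⟨c, hc, hc2⟩ := choice h1 (fun j => by
    obtain ⟨a, k, hb, h2, h3⟩ := exists_blk (hinf j)
    refine ⟨Nat.pair a k, ?_⟩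
    simp only [Nat.unpair_pair]
    exact ⟨hb, h2, h3⟩)
  refine (((CI.left hc).add (CI.right hc)).tsub (CI.of_computable Computable.id)).congr
    fun j => ?_
  obtain ⟨h2, h3, h4⟩ := hc2 j
  exact revb_eq h2 h3 h4

theorem cjoin_revb {h : ℕ → Bool} (hinf : Inf h) (c : ℕ → ℕ → Bool) :
    TR (cjoin fun j => c (revb h j)) (bjoin (cjoin c) h) := by
  rw [tr_iff_ci]
  have h1 : CI {orc (bjoin (cjoin c) h)} (revb h) := ci_revb (tr_bjoin_right _ _) hinf
  have h2 : CI {orc (bjoin (cjoin c) h)}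
      (fun n : ℕ => Nat.pair (revb h n.unpair.1) n.unpair.2) :=
    CI.npair (CI.comp h1 (CI.left (CI.of_computable Computable.id)))
      (CI.right (CI.of_computable Computable.id))
  refine (ci_orc_comp (B := cjoin c) (tr_bjoin_left _ _) h2).congr fun n => ?_
  unfold cjoin
  simp only [Nat.unpair_pair]

theorem eqv_revb (z : ℕ → Bool) {h : ℕ → Bool} (hinf : Inf h) (c : ℕ → ℕ → Bool) :
    Eqv (bjoin (bjoin z (cjoin c)) h) (bjoin (bjoin z (cjoin fun j => c (revb h j))) h) := by
  have key : ∀ c : ℕ → ℕ → Bool, TR (bjoin (bjoin z (cjoin fun j => c (revb h j))) h)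
      (bjoin (bjoin z (cjoin c)) h) := by
    intro c
    have h1 : TR (bjoin (cjoin c) h) (bjoin (bjoin z (cjoin c)) h) :=
      bjoin_tr ((tr_bjoin_right z (cjoin c)).trans (tr_bjoin_left _ _)) (tr_bjoin_right _ _)
    exact bjoin_tr (bjoin_tr ((tr_bjoin_left z (cjoin c)).trans (tr_bjoin_left _ _))
      ((cjoin_revb hinf c).trans h1)) (tr_bjoin_right _ _)
  refine ⟨?_, key c⟩
  have h2 := key fun j => c (revb h j)
  have h3 : (fun j => c (revb h (revb h j))) = c := funext fun j => by rw [hinf.revb_revb]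
  simp only [h3] at h2
  exact h2

end Pool.Agent.MGen
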